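import Mathlib

set_option autoImplicit false

namespace Pool.Agent.P.MP_7badbe_co

/-- The family `H` of subsets of `Fin n` contains no copy of the `k`-graph `F_i`: there are no
disjoint `S`, `T` of sizes `i` and `k - 1` such that all `k`-subsets of `S ∪ T` containing `S` or
containing `T` belong to `H`. -/
def IsFree (k i : ℕ) {n : ℕ} (H : Finset (Finset (Fin n))) : Prop :=
  ¬ ∃ S T : Finset (Fin n), Disjoint S T ∧ S.card = i ∧ T.card = k - 1 ∧
    ∀ e ⊆ S ∪ T, e.card = k → (S ⊆ e ∨ T ⊆ e) → e ∈ H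

/-- The largest number of edges of a `k`-graph on `n` vertices with no copy of `F_i`. -/
noncomputable def exF (k i n : ℕ) : ℕ :=
  sSup {m | ∃ H : Finset (Finset (Fin n)), (∀ e ∈ H, e.card = k) ∧ IsFree k i H ∧ H.card = m}

end Pool.Agent.P.MP_7badbe_co
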