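import Mathlib

set_option autoImplicit false

open Finset
open scoped BigOperators

namespace Pool.Agent.P.MP_7badbe_co

variable {V : Type} [Fintype V]

/-- expectation of a function of the multiset of `m` independent uniform points -/
noncomputable def Ex : ℕ → (Multiset V → ℝ) → ℝ
  | 0, F => F 0
  | m + 1, F => 𝔼 v, Ex m (fun M => F (v ::ₘ M))

open Classical in
/-- indicator -/
noncomputable def ind (P : Prop) : ℝ := if P then 1 else 0

lemma ind_pos {P : Prop} (h : P) : ind P = 1 := by simp [ind, h]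
lemma ind_neg {P : Prop} (h : ¬ P) : ind P = 0 := by simp [ind, h]
lemma ind_nonneg (P : Prop) : 0 ≤ ind P := by unfold ind; split_ifs <;> norm_num
lemma ind_le_one (P : Prop) : ind P ≤ 1 := by unfold ind; split_ifs <;> norm_num
lemma ind_not (P : Prop) : ind (¬ P) = 1 - ind P := by
  by_cases h : P <;> simp [ind, h]
lemma ind_and (P Q : Prop) : ind (P ∧ Q) = ind P * ind Q := by
  by_cases h : P <;> by_cases h' : Q <;> simp [ind, h, h']
lemma ind_sq (P : Prop) : ind P ^ 2 = ind P := by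
  by_cases h : P <;> simp [ind, h]
lemma ind_mono {P Q : Prop} (h : P → Q) : ind P ≤ ind Q := by
  by_cases hp : P
  · rw [ind_pos hp, ind_pos (h hp)]
  · rw [ind_neg hp]; exact ind_nonneg _
lemma ind_congr {P Q : Prop} (h : P ↔ Q) : ind P = ind Q := by rw [propext h]
lemma of_ind_pos {P : Prop} (h : 0 < ind P) : P := by
  by_contra hp; rw [ind_neg hp] at h; exact lt_irrefl _ h

@[simp] lemma Ex_zero (F : Multiset V → ℝ) : Ex 0 F = F 0 := rfl
lemma Ex_succ (m : ℕ) (F : Multiset V → ℝ) :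
    Ex (m + 1) F = 𝔼 v, Ex m (fun M => F (v ::ₘ M)) := rfl

lemma Ex_mono {m : ℕ} {F G : Multiset V → ℝ} (h : ∀ M, M.card = m → F M ≤ G M) :
    Ex m F ≤ Ex m G := by
  induction m generalizing F G with
  | zero => exact h 0 rfl
  | succ m ih =>
    exact expect_le_expect (fun v _ => ih (fun M hM => h _ (by simp [hM])))

lemma Ex_congr {m : ℕ} {F G : Multiset V → ℝ} (h : ∀ M, M.card = m → F M = G M) :
    Ex m F = Ex m G :=
  le_antisymm (Ex_mono fun M hM => (h M hM).le) (Ex_mono fun M hM => (h M hM).ge)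

lemma Ex_add (m : ℕ) (F G : Multiset V → ℝ) :
    Ex m (fun M => F M + G M) = Ex m F + Ex m G := by
  induction m generalizing F G with
  | zero => rfl
  | succ m ih => simp only [Ex_succ, ih, expect_add_distrib]

lemma Ex_mul (m : ℕ) (c : ℝ) (F : Multiset V → ℝ) :
    Ex m (fun M => c * F M) = c * Ex m F := by
  induction m generalizing F with
  | zero => rfl
  | succ m ih => simp only [Ex_succ, ih, mul_expect]

lemma Ex_mul' (m : ℕ) (c : ℝ) (F : Multiset V → ℝ) :
    Ex m (fun M => F M * c) = Ex m F * c := by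
  simp only [mul_comm _ c, Ex_mul]

lemma Ex_sub (m : ℕ) (F G : Multiset V → ℝ) :
    Ex m (fun M => F M - G M) = Ex m F - Ex m G := by
  induction m generalizing F G with
  | zero => rfl
  | succ m ih => simp only [Ex_succ, ih, expect_sub_distrib]

lemma Ex_expect {W : Type} (s : Finset W) (m : ℕ) (F : W → Multiset V → ℝ) :
    Ex m (fun M => 𝔼 w ∈ s, F w M) = 𝔼 w ∈ s, Ex m (F w) := by
  induction m generalizing F with
  | zero => rfl
  | succ m ih => simp only [Ex_succ, ih]; rw [expect_comm]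

lemma Ex_sum {W : Type} (s : Finset W) (m : ℕ) (F : W → Multiset V → ℝ) :
    Ex m (fun M => ∑ w ∈ s, F w M) = ∑ w ∈ s, Ex m (F w) := by
  induction m generalizing F with
  | zero => rfl
  | succ m ih => simp only [Ex_succ, ih]; rw [expect_sum_comm]

lemma Ex_comm (a b : ℕ) (F : Multiset V → Multiset V → ℝ) :
    Ex a (fun A => Ex b (fun B => F A B)) = Ex b (fun B => Ex a (fun A => F A B)) := by
  induction a generalizing F with
  | zero => rfl
  | succ a ih => simp only [Ex_succ, ih, Ex_expect]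

lemma Ex_split (a b : ℕ) (F : Multiset V → ℝ) :
    Ex (a + b) F = Ex a (fun A => Ex b (fun B => F (A + B))) := by
  induction a generalizing F with
  | zero => simp
  | succ a ih => rw [Nat.add_right_comm]; simp only [Ex_succ, ih, Multiset.cons_add]

lemma Ex_succ' (m : ℕ) (F : Multiset V → ℝ) :
    Ex (m + 1) F = Ex m (fun M => 𝔼 v, F (v ::ₘ M)) := by
  rw [Ex_succ, Ex_expect]

variable [Nonempty V]

@[simp] lemma Ex_const (m : ℕ) (c : ℝ) : Ex m (fun _ : Multiset V => c) = c := by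
  induction m with
  | zero => rfl
  | succ m ih => simp only [Ex_succ, ih]; exact expect_const univ_nonempty _

lemma Ex_nonneg {m : ℕ} {F : Multiset V → ℝ} (h : ∀ M, M.card = m → 0 ≤ F M) : 0 ≤ Ex m F := by
  simpa using Ex_mono (F := fun _ => 0) h

lemma Ex_le {m : ℕ} {F : Multiset V → ℝ} {c : ℝ} (h : ∀ M, M.card = m → F M ≤ c) :
    Ex m F ≤ c := by
  simpa using Ex_mono (G := fun _ => c) h

lemma exists_pos {m : ℕ} {F : Multiset V → ℝ} (h : 0 < Ex m F) :
    ∃ M : Multiset V, M.card = m ∧ 0 < F M := by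
  by_contra hc
  push Not at hc
  exact absurd (Ex_le hc) (not_le.2 h)

omit [Nonempty V] in
lemma Ex_all (m : ℕ) (P : V → Prop) :
    Ex m (fun M => ind (∀ t ∈ M, P t)) = (𝔼 v, ind (P v)) ^ m := by
  induction m with
  | zero => simp [ind]
  | succ m ih =>
    simp only [Ex_succ, Multiset.forall_mem_cons, ind_and, Ex_mul, ih]
    rw [← expect_mul, pow_succ']

lemma Ex_mapsum (m : ℕ) (h : V → ℝ) :
    Ex m (fun M => (M.map h).sum) = m * 𝔼 v, h v := by
  induction m with
  | zero => simp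
  | succ m ih =>
    simp only [Ex_succ, Multiset.map_cons, Multiset.sum_cons, Ex_add, Ex_const, ih,
      expect_add_distrib, expect_const univ_nonempty]
    push_cast; ring

lemma Ex_var (m : ℕ) (F : Multiset V → ℝ) (c : ℝ) :
    Ex m (fun M => (F M - c) ^ 2) = Ex m (fun M => F M ^ 2) - 2 * c * Ex m F + c ^ 2 := by
  have : (fun M => (F M - c) ^ 2) = fun M => (F M ^ 2 - (2 * c) * F M) + c ^ 2 := by
    funext M; ring
  rw [this, Ex_add, Ex_sub, Ex_mul, Ex_const]

lemma Ex_sq (m : ℕ) (F : Multiset V → ℝ) : (Ex m F) ^ 2 ≤ Ex m (fun M => F M ^ 2) := by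
  have h1 := Ex_var m F (Ex m F)
  have h2 : 0 ≤ Ex m (fun M => (F M - Ex m F) ^ 2) := Ex_nonneg (fun _ _ => sq_nonneg _)
  nlinarith

lemma av_var (f : V → ℝ) (c : ℝ) :
    𝔼 v, (f v - c) ^ 2 = 𝔼 v, f v ^ 2 - 2 * c * 𝔼 v, f v + c ^ 2 := by
  have : (fun v => (f v - c) ^ 2) = fun v => (f v ^ 2 - (2 * c) * f v) + c ^ 2 := by
    funext M; ring
  rw [this, expect_add_distrib, expect_sub_distrib, ← mul_expect, expect_const univ_nonempty]

lemma av_sq (f : V → ℝ) : (𝔼 v, f v) ^ 2 ≤ 𝔼 v, f v ^ 2 := by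
  have h1 := av_var f (𝔼 v, f v)
  have h2 : 0 ≤ 𝔼 v, (f v - 𝔼 v, f v) ^ 2 := expect_nonneg (fun _ _ => sq_nonneg _)
  nlinarith

/-- Efron-Stein inequality -/
lemma efron (m : ℕ) (F G : Multiset V → ℝ) :
    Ex (m + 1) (fun M => F M ^ 2) - (Ex (m + 1) F) ^ 2
      ≤ (m + 1) * 𝔼 v, Ex m (fun M => (F (v ::ₘ M) - G M) ^ 2) := by
  have key : ∀ (m : ℕ) (F G : Multiset V → ℝ),
      𝔼 v, (Ex m (fun M => F (v ::ₘ M))) ^ 2 - (Ex (m + 1) F) ^ 2
        ≤ 𝔼 v, Ex m (fun M => (F (v ::ₘ M) - G M) ^ 2) := by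
    intro m F G
    have h1 := av_var (fun v => Ex m (fun M => F (v ::ₘ M))) (Ex m G)
    have h2 : 𝔼 v, (Ex m (fun M => F (v ::ₘ M)) - Ex m G) ^ 2
        ≤ 𝔼 v, Ex m (fun M => (F (v ::ₘ M) - G M) ^ 2) := by
      refine expect_le_expect (fun v _ => ?_)
      rw [← Ex_sub]
      exact Ex_sq _ _
    rw [← Ex_succ] at h1
    nlinarith [sq_nonneg (Ex (m + 1) F - Ex m G)]
  induction m generalizing F G with
  | zero => simpa [Ex_succ] using key 0 F G
  | succ m ih =>
    have h1 := key (m + 1) F G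
    have h2 : 𝔼 v, (Ex (m + 1) (fun M => F (v ::ₘ M) ^ 2)
        - (Ex (m + 1) (fun M => F (v ::ₘ M))) ^ 2)
        ≤ 𝔼 v, ((m + 1) * 𝔼 u, Ex m (fun M => (F (v ::ₘ u ::ₘ M) - G (v ::ₘ M)) ^ 2)) :=
      expect_le_expect (fun v _ => ih (fun M => F (v ::ₘ M)) (fun M => G (v ::ₘ M)))
    rw [expect_sub_distrib, ← mul_expect, expect_comm, ← Ex_succ (m + 1) (fun M => F M ^ 2)] at h2
    have h3 : 𝔼 v, Ex (m + 1) (fun M => (F (v ::ₘ M) - G M) ^ 2)
        = 𝔼 u, 𝔼 v, Ex m (fun M => (F (v ::ₘ u ::ₘ M) - G (v ::ₘ M)) ^ 2) := by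
      refine expect_congr rfl (fun u _ => ?_)
      rw [Ex_succ]
      simp only [Multiset.cons_swap u]
    rw [← h3] at h2
    push_cast
    linarith

/-- the first-order part of a symmetric function is small -/
lemma hoeff (m : ℕ) (F : Multiset V → ℝ) :
    (m + 1) * (𝔼 v, (Ex m (fun M => F (v ::ₘ M))) ^ 2 - (Ex (m + 1) F) ^ 2)
      ≤ Ex (m + 1) (fun M => F M ^ 2) - (Ex (m + 1) F) ^ 2 := by
  induction m generalizing F with
  | zero => simp [Ex_succ]
  | succ m ih =>
    have h2 : 𝔼 v, ((m + 1) * (𝔼 u, (Ex m (fun M => F (v ::ₘ u ::ₘ M))) ^ 2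
        - (Ex (m + 1) (fun M => F (v ::ₘ M))) ^ 2))
        ≤ 𝔼 v, (Ex (m + 1) (fun M => F (v ::ₘ M) ^ 2)
        - (Ex (m + 1) (fun M => F (v ::ₘ M))) ^ 2) :=
      expect_le_expect (fun v _ => ih (fun M => F (v ::ₘ M)))
    rw [← mul_expect, expect_sub_distrib, expect_sub_distrib,
      ← Ex_succ (m + 1) (fun M => F M ^ 2)] at h2
    -- conditional variance dominates
    set φ : V → ℝ := fun v => Ex (m + 1) (fun M => F (v ::ₘ M)) with hφ
    set ψ : V → V → ℝ := fun v u => Ex m (fun M => F (v ::ₘ u ::ₘ M)) with hψ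
    have hs : ∀ v u, ψ v u = ψ u v := fun v u => by
      simp only [hψ, Multiset.cons_swap v u]
    have h1 : ∀ v, φ v = 𝔼 u, ψ v u := fun v => rfl
    have h0 : Ex (m + 1 + 1) F = 𝔼 v, φ v := rfl
    have h3 : 𝔼 u, (φ u - 𝔼 v, φ v) ^ 2 ≤ 𝔼 u, 𝔼 v, (ψ v u - φ v) ^ 2 := by
      refine expect_le_expect (fun u _ => ?_)
      have := av_sq (fun v => ψ v u - φ v)
      rw [expect_sub_distrib] at this
      simp only [hs _ u] at this ⊢
      rwa [← h1] at this
    rw [expect_comm, av_var] at h3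
    simp only [av_var, ← h1, expect_add_distrib, expect_sub_distrib] at h3
    have h4 : 𝔼 v, 2 * φ v * φ v = 2 * 𝔼 v, φ v ^ 2 := by
      rw [mul_expect]; exact expect_congr rfl (fun v _ => by ring)
    rw [h4] at h3
    rw [h0]
    push_cast
    have h5 : (0 : ℝ) ≤ m + 1 := by positivity
    nlinarith [mul_le_mul_of_nonneg_left h3 h5]

lemma hoeff_ind (m : ℕ) (g : Multiset V → Prop) {w : ℝ} (hw : Ex (m + 1) (fun M => ind (g M)) ≤ w) :
    𝔼 v, (Ex m (fun M => ind (g (v ::ₘ M)))) ^ 2 ≤ w ^ 2 + w / (m + 1) := by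
  have h1 := hoeff m (fun M => ind (g M))
  simp only [ind_sq] at h1
  have h0 : 0 ≤ Ex (m + 1) (fun M => ind (g M)) := Ex_nonneg (fun _ _ => ind_nonneg _)
  have h5 : (0 : ℝ) < m + 1 := by positivity
  have h2 : 𝔼 v, (Ex m (fun M => ind (g (v ::ₘ M)))) ^ 2 - Ex (m + 1) (fun M => ind (g M)) ^ 2
      ≤ w / (m + 1) := by
    rw [le_div_iff₀ h5]; nlinarith [sq_nonneg (Ex (m + 1) (fun M => ind (g M)))]
  nlinarith

lemma tangent {d W : ℝ} (r : ℕ) (hd : 0 ≤ d) (hd1 : d ≤ 1) (hW : 0 < W) (hW1 : 2 * W ≤ 1) :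
    (1 - 2 * W) ^ r * (1 - (2 * W)⁻¹ * d) ≤ (1 - d) ^ r := by
  have h0 : 0 ≤ (1 - 2 * W) ^ r := pow_nonneg (by linarith) _
  rcases le_total d (2 * W) with h | h
  · have h1 : (1 - 2 * W) ^ r ≤ (1 - d) ^ r := pow_le_pow_left₀ (by linarith) (by linarith) _
    have h2 : 0 ≤ (2 * W)⁻¹ * d := by positivity
    nlinarith
  · have h1 : 1 ≤ (2 * W)⁻¹ * d := by
      rw [← div_eq_inv_mul, le_div_iff₀ (by linarith)]; linarith
    have h2 : 0 ≤ (1 - d) ^ r := pow_nonneg (by linarith) _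
    nlinarith

/-- sum over all ways of splitting off a sub-multiset of size `r` -/
noncomputable def splitSum (r : ℕ) (Φ : Multiset V → Multiset V → ℝ) (M : Multiset V) : ℝ :=
  (M.antidiagonal.map (fun p => if p.1.card = r then Φ p.1 p.2 else 0)).sum

omit [Fintype V] [Nonempty V] in
lemma splitSum_zero_cons (Φ : Multiset V → Multiset V → ℝ) (v : V) (M : Multiset V) :
    splitSum 0 Φ (v ::ₘ M) = splitSum 0 (fun I J => Φ I (v ::ₘ J)) M := by
  simp [splitSum, Multiset.antidiagonal_cons, Multiset.map_map]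

omit [Fintype V] [Nonempty V] in
lemma splitSum_succ_cons (r : ℕ) (Φ : Multiset V → Multiset V → ℝ) (v : V) (M : Multiset V) :
    splitSum (r + 1) Φ (v ::ₘ M) = splitSum (r + 1) (fun I J => Φ I (v ::ₘ J)) M
      + splitSum r (fun I J => Φ (v ::ₘ I) J) M := by
  simp [splitSum, Multiset.antidiagonal_cons, Multiset.map_map]

omit [Nonempty V] in
lemma Ex_splitSum (m r : ℕ) (Φ : Multiset V → Multiset V → ℝ) :
    Ex m (splitSum r Φ) = m.choose r * Ex r (fun I => Ex (m - r) (fun J => Φ I J)) := by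
  induction m generalizing r Φ with
  | zero => cases r <;> simp [splitSum]
  | succ m ih =>
    cases r with
    | zero => simp [Ex_succ, splitSum_zero_cons, ih]
    | succ r =>
      simp only [Ex_succ (m := m), splitSum_succ_cons, Ex_add, ih, expect_add_distrib,
        ← mul_expect, Nat.choose_succ_succ', Nat.add_sub_add_right]
      rw [← Ex_succ r (fun I => Ex (m - r) (fun J => Φ I J))]
      push_cast
      rcases lt_or_ge m (r + 1) with h | h
      · rw [Nat.choose_eq_zero_of_lt h]; simp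
      · have h1 : m - r = (m - (r + 1)) + 1 := by omega
        rw [← Ex_expect]
        simp only [h1, Ex_succ (m - (r + 1))]
        ring

omit [Fintype V] [Nonempty V] in
lemma le_splitSum {r : ℕ} {Φ : Multiset V → Multiset V → ℝ} (h0 : ∀ I J, 0 ≤ Φ I J)
    (I J : Multiset V) (hI : I.card = r) : Φ I J ≤ splitSum r Φ (I + J) := by
  unfold splitSum
  have h1 : Φ I J = (fun p : Multiset V × Multiset V =>
      if p.1.card = r then Φ p.1 p.2 else 0) (I, J) := by simp [hI]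
  rw [h1]
  refine Multiset.single_le_sum (fun x hx => ?_) _
    (Multiset.mem_map_of_mem _ (Multiset.mem_antidiagonal.2 rfl))
  obtain ⟨p, _, rfl⟩ := Multiset.mem_map.1 hx
  split_ifs
  exacts [h0 _ _, le_rfl]

omit [Fintype V] [Nonempty V] in
lemma splitSum_nonneg {r : ℕ} {Φ : Multiset V → Multiset V → ℝ} (h0 : ∀ I J, 0 ≤ Φ I J)
    (M : Multiset V) : 0 ≤ splitSum r Φ M := by
  refine Multiset.sum_nonneg (fun x hx => ?_)
  obtain ⟨p, _, rfl⟩ := Multiset.mem_map.1 hx
  split_ifs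
  exacts [h0 _ _, le_rfl]

omit [Fintype V] [Nonempty V] in
lemma ind_le_mapsum (P : V → Prop) (M : Multiset V) :
    ind (∃ v ∈ M, P v) ≤ (M.map (fun v => ind (P v))).sum := by
  have h0 : ∀ x ∈ M.map (fun v => ind (P v)), (0 : ℝ) ≤ x := by
    intro x hx
    obtain ⟨p, _, rfl⟩ := Multiset.mem_map.1 hx
    exact ind_nonneg _
  by_cases h : ∃ v ∈ M, P v
  · obtain ⟨v, hv, hP⟩ := h
    refine (ind_le_one _).trans ?_
    rw [← ind_pos hP]
    exact Multiset.single_le_sum h0 _ (Multiset.mem_map_of_mem _ hv)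
  · rw [ind_neg h]
    exact Multiset.sum_nonneg h0

end Pool.Agent.P.MP_7badbe_co
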