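import Pool.Agent.P.MP_7badbe_co.Transfer

set_option autoImplicit false

open Finset Filter Topology
open scoped BigOperators

namespace Pool.Agent.P.MP_7badbe_co

lemma expect_update {ι A : Type} [Fintype ι] [DecidableEq ι] [Fintype A] [Nonempty A] (a : ι)
    (Φ : (ι → A) → ℝ) : 𝔼 χ, Φ χ = 𝔼 v, 𝔼 χ, Φ (Function.update χ a v) := by
  have h1 : 𝔼 χ, Φ χ = 𝔼 p : A × (ι → A), Φ p.2 := by
    rw [← univ_product_univ, expect_product]
    simp [expect_const univ_nonempty]
  have h2 : Function.Involutive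
      (fun p : A × (ι → A) => (p.2 a, Function.update p.2 a p.1)) := by
    rintro ⟨v, χ⟩; simp
  rw [h1, ← expect_product' univ univ (fun v χ => Φ (Function.update χ a v)), univ_product_univ]
  exact (Fintype.expect_bijective _ h2.bijective _ _ (fun _ => rfl)).symm

lemma expect_map {ι A : Type} [Fintype ι] [DecidableEq ι] [Fintype A] [Nonempty A]
    (e : Finset ι) (F : Multiset A → ℝ) : 𝔼 χ : ι → A, F (e.val.map χ) = Ex e.card F := by
  induction e using Finset.induction_on generalizing F with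
  | empty => simp [expect_const univ_nonempty]
  | insert a e ha ih =>
    rw [expect_update a, card_insert_of_notMem ha, Ex_succ]
    refine expect_congr rfl (fun v _ => ?_)
    rw [← ih]
    refine expect_congr rfl (fun χ _ => ?_)
    rw [insert_val_of_notMem ha, Multiset.map_cons, Function.update_self]
    congr 2
    exact Multiset.map_congr rfl (fun x hx => Function.update_of_ne (by rintro rfl; exact ha hx) _ _)

lemma le_map_lift {α β : Type} (f : α → β) (T : Multiset α) (J : Multiset β) (h : J ≤ T.map f) :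
    ∃ J' ≤ T, J = J'.map f := by
  induction T using Quotient.inductionOn with
  | h T =>
    induction J using Quotient.inductionOn with
    | h J =>
      obtain ⟨l, hl, hs⟩ := Multiset.coe_le.1 h
      obtain ⟨l', h1, rfl⟩ := List.sublist_map_iff.1 hs
      exact ⟨l', Multiset.coe_le.2 h1.subperm, (Multiset.coe_eq_coe.2 hl).symm⟩

theorem label_transfer {m i : ℕ} {p : ℝ}
    (hp : Tendsto (fun n : ℕ => (exF (m + 1) i n : ℝ) / n.choose (m + 1)) atTop (𝓝 p))
    (A : Type) [Fintype A] [Nonempty A] (γ : Multiset A → Prop) (hγ : Hit i m γ) :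
    1 - p ≤ Ex (m + 1) (fun M => ind (γ M)) := by
  refine upper_transfer hp (fun n => ⟨Fin n → A, inferInstance, inferInstance,
    fun χ e => γ (e.val.map χ), fun χ S T hd hS hT => ?_, fun e he => ?_⟩)
  · rcases hγ (S.val.map χ) (T.val.map χ) (by simpa using hS) (by simpa using hT) with
      ⟨J, hJ, hc, hg⟩ | ⟨s, hs, hg⟩
    · obtain ⟨J', hJ', rfl⟩ := le_map_lift χ _ _ hJ
      set J'' : Finset (Fin n) := ⟨J', Multiset.nodup_of_le hJ' T.nodup⟩ with hJ''
      have h1 : J'' ⊆ T := val_le_iff.1 hJ'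
      have h2 : Disjoint S J'' := hd.mono_right h1
      refine ⟨S.disjUnion J'' h2, ?_, ?_, Or.inl ?_, ?_⟩
      · rw [disjUnion_eq_union]; exact union_subset_union_right h1
      · rw [card_disjUnion, hS]; simpa [hJ''] using hc
      · rw [disjUnion_eq_union]; exact subset_union_left
      · rwa [← Multiset.map_add] at hg
    · obtain ⟨s, hs', rfl⟩ := Multiset.mem_map.1 hs
      have h1 : s ∉ T := disjoint_left.1 hd hs'
      refine ⟨insert s T, insert_subset (mem_union_left _ hs') subset_union_right,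
        by rw [card_insert_of_notMem h1, hT], Or.inr (subset_insert _ _), ?_⟩
      show γ _
      rwa [insert_val_of_notMem h1, Multiset.map_cons]
  · rw [expect_map e (fun M => ind (γ M)), he]

variable {A : Type} [AddCommGroup A] [Fintype A]

open Classical in
/-- union of the translates of `B` by the elements of `M` -/
noncomputable def cov (B : Finset A) (M : Multiset A) : Finset A :=
  univ.filter (fun a => ∃ t ∈ M, a - t ∈ B)

open Classical in
/-- sums of `r` elements of `T` -/
noncomputable def sums (r : ℕ) (T : Multiset A) : Finset A :=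
  univ.filter (fun a => ∃ J ≤ T, J.card = r ∧ J.sum = a)

lemma cov_subset {r : ℕ} {T : Multiset A} {B : Finset A} (hB : B ⊆ sums r T) (M : Multiset A) :
    cov B M ⊆ sums (r + 1) (T + M) := by
  intro a ha
  simp only [cov, sums, mem_filter, mem_univ, true_and] at ha ⊢
  obtain ⟨t, ht, h⟩ := ha
  have := hB h
  simp only [sums, mem_filter, mem_univ, true_and] at this
  obtain ⟨J, hJ, hc, hs⟩ := this
  exact ⟨J + {t}, add_le_add hJ (Multiset.singleton_le.2 ht), by simp [hc], by simp [hs]⟩

lemma av_mem (B : Finset A) (a : A) : 𝔼 t, ind (a - t ∈ B) = B.card / Fintype.card A := by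
  classical
  rw [Fintype.expect_equiv (Equiv.subLeft a) (fun t => ind (a - t ∈ B)) (fun t => ind (t ∈ B))
    (fun _ => rfl),
    Fintype.expect_eq_sum_div_card]
  congr 1
  rw [sum_congr rfl (g := fun t => if t ∈ B then 1 else 0) (fun t _ => by
    by_cases h : t ∈ B <;> simp [ind, h])]
  simp

lemma growth [DecidableEq A] (B : Finset A) (hB : 0 < B.card) (s : ℕ) (U : Finset A)
    (h : 4 * (U.card + s * B.card) ≤ Fintype.card A) :
    Ex s (fun M => (1 / 2 : ℝ) ^ (2 * (U ∪ cov B M).card / B.card))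
      ≤ (3 / 4) ^ s * (1 / 2 : ℝ) ^ (2 * U.card / B.card) := by
  induction s generalizing U with
  | zero => simp [cov]
  | succ s ih =>
    set tr : A → Finset A := fun t => B.map (Equiv.addRight t).toEmbedding with htr
    have hmem : ∀ t a, a ∈ tr t ↔ a - t ∈ B := fun t a => by
      simp [htr, mem_map_equiv, sub_eq_add_neg]
    have hcard : ∀ t, (tr t).card = B.card := fun t => card_map _
    have h1 : ∀ t M, U ∪ cov B (t ::ₘ M) = (U ∪ tr t) ∪ cov B M := fun t M => by
      ext a; simp [cov, hmem]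
    have hB' : (0 : ℝ) < B.card := by exact_mod_cast hB
    have h2 : ∀ t, (1 / 2 : ℝ) ^ (2 * (U ∪ tr t).card / B.card)
        ≤ (1 / 2 : ℝ) ^ (2 * U.card / B.card)
          * (1 / 2 + (B.card : ℝ)⁻¹ * ∑ u ∈ U, ind (u - t ∈ B)) := by
      intro t
      have h3 : ∑ u ∈ U, ind (u - t ∈ B) = (U ∩ tr t).card := by
        rw [← filter_mem_eq_inter, card_filter]
        push_cast
        exact sum_congr rfl (fun u _ => by simp [ind, hmem])
      have h4 := card_union_add_card_inter U (tr t)
      rw [hcard] at h4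
      rw [h3]
      rcases le_total (2 * (U ∩ tr t).card) B.card with h5 | h5
      · have h6 : 2 * U.card / B.card + 1 ≤ 2 * (U ∪ tr t).card / B.card := by
          rw [← Nat.add_div_right _ hB]
          exact Nat.div_le_div_right (by omega)
        refine (pow_le_pow_of_le_one (by norm_num) (by norm_num) h6).trans ?_
        rw [pow_succ]
        gcongr
        have : 0 ≤ (B.card : ℝ)⁻¹ * (U ∩ tr t).card := by positivity
        linarith
      · have h6 : 2 * U.card / B.card ≤ 2 * (U ∪ tr t).card / B.card :=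
          Nat.div_le_div_right (Nat.mul_le_mul_left 2 (card_le_card subset_union_left))
        refine (pow_le_pow_of_le_one (by norm_num) (by norm_num) h6).trans ?_
        refine le_mul_of_one_le_right (by positivity) ?_
        have h7 : (B.card : ℝ) ≤ 2 * (U ∩ tr t).card := by exact_mod_cast h5
        have : 1 / 2 ≤ (B.card : ℝ)⁻¹ * (U ∩ tr t).card := by
          rw [← div_eq_inv_mul, le_div_iff₀ hB']; linarith
        linarith
    have h3 : Ex (s + 1) (fun M => (1 / 2 : ℝ) ^ (2 * (U ∪ cov B M).card / B.card))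
        ≤ 𝔼 t, (3 / 4) ^ s * ((1 / 2 : ℝ) ^ (2 * U.card / B.card)
          * (1 / 2 + (B.card : ℝ)⁻¹ * ∑ u ∈ U, ind (u - t ∈ B))) := by
      refine expect_le_expect (fun t _ => ?_)
      simp only [h1]
      refine (ih (U ∪ tr t) ?_).trans (mul_le_mul_of_nonneg_left (h2 t) (by positivity))
      have := card_union_le U (tr t)
      rw [hcard] at this
      nlinarith
    refine h3.trans ?_
    simp only [← mul_expect, expect_add_distrib, expect_const univ_nonempty, expect_sum_comm,
      av_mem, sum_const, nsmul_eq_mul]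
    have h4 : (0 : ℝ) < Fintype.card A := by exact_mod_cast Fintype.card_pos
    have h5 : (B.card : ℝ)⁻¹ * (U.card * (B.card / Fintype.card A)) ≤ 1 / 4 := by
      rw [show (B.card : ℝ)⁻¹ * (U.card * (B.card / Fintype.card A)) = U.card / Fintype.card A by
        field_simp, div_le_iff₀ h4]
      have : 4 * U.card ≤ Fintype.card A := by nlinarith
      have : (4 : ℝ) * U.card ≤ Fintype.card A := by exact_mod_cast this
      linarith
    rw [pow_succ, mul_assoc, mul_comm (3 / 4 : ℝ)]
    gcongr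
    linarith

lemma growth' (B : Finset A) (β : ℕ) (h : 64 * (β * B.card) ≤ Fintype.card A) :
    Ex (16 * β) (fun M => ind ((cov B M).card < β * B.card)) ≤ (1 / 16) ^ β := by
  classical
  rcases Nat.eq_zero_or_pos B.card with hB | hB
  · refine Ex_le (fun M _ => ?_)
    rw [ind_neg (by simp [hB])]; positivity
  have h1 := growth B hB (16 * β) ∅ (by simp; linarith)
  simp only [empty_union, card_empty, mul_zero, Nat.zero_div, pow_zero, mul_one] at h1
  have h2 : Ex (16 * β) (fun M => ind ((cov B M).card < β * B.card))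
      ≤ Ex (16 * β) (fun M => 4 ^ β * (1 / 2 : ℝ) ^ (2 * (cov B M).card / B.card)) := by
    refine Ex_mono (fun M _ => ?_)
    by_cases hM : (cov B M).card < β * B.card
    · rw [ind_pos hM]
      have h3 : 2 * (cov B M).card / B.card ≤ 2 * β :=
        Nat.div_le_of_le_mul (by nlinarith)
      have h4 := pow_le_pow_of_le_one (a := (1 / 2 : ℝ)) (by norm_num) (by norm_num) h3
      refine le_trans (le_of_eq ?_) (mul_le_mul_of_nonneg_left h4 (by positivity))
      rw [pow_mul, ← mul_pow]; norm_num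
    · rw [ind_neg hM]; positivity
  rw [Ex_mul] at h2
  refine h2.trans ((mul_le_mul_of_nonneg_left h1 (by positivity)).trans ?_)
  rw [pow_mul, ← mul_pow]
  exact pow_le_pow_left₀ (by positivity) (by norm_num) _

lemma sums_card (β r : ℕ) (hβ : 1 ≤ β) (h : 64 * β ^ r ≤ Fintype.card A) :
    Ex (r * (16 * β)) (fun T : Multiset A => ind ((sums r T).card < β ^ r))
      ≤ r * (1 / 16) ^ β := by
  induction r with
  | zero =>
    have : (0 : A) ∈ sums 0 (0 : Multiset A) := by simp [sums]
    have := card_pos.2 ⟨_, this⟩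
    simp only [zero_mul, Ex_zero, pow_zero, Nat.cast_zero]
    exact (ind_neg (by omega)).le
  | succ r ih =>
    have h1 := ih (le_trans (Nat.mul_le_mul_left _ (Nat.pow_le_pow_right hβ (Nat.le_succ r))) h)
    rw [Nat.succ_mul, Ex_split]
    have h2 : Ex (r * (16 * β)) (fun T : Multiset A => Ex (16 * β) (fun M =>
        ind ((sums (r + 1) (T + M)).card < β ^ (r + 1))))
        ≤ Ex (r * (16 * β)) (fun T : Multiset A =>
          ind ((sums r T).card < β ^ r) + (1 / 16) ^ β) := by
      refine Ex_mono (fun T _ => ?_)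
      by_cases hT : (sums r T).card < β ^ r
      · rw [ind_pos hT]
        exact (Ex_le (fun _ _ => ind_le_one _)).trans (le_add_of_nonneg_right (by positivity))
      · rw [ind_neg hT, zero_add]
        obtain ⟨B, hB, hBc⟩ := exists_subset_card_eq (not_lt.1 hT)
        refine le_trans (Ex_mono (fun M _ => ind_mono (fun hM => ?_)))
          (growth' B β (by rwa [hBc, ← pow_succ']))
        rw [hBc, ← pow_succ']
        exact lt_of_le_of_lt (card_le_card (cov_subset hB M)) hM
    rw [Ex_add, Ex_const] at h2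
    push_cast
    linarith

lemma miss_le (β r m : ℕ) (hβ : 1 ≤ β) (h : 64 * β ^ r ≤ Fintype.card A)
    (hm : (r + 1) * (16 * β) ≤ m) (a : A) :
    Ex m (fun T : Multiset A => ind (a ∉ sums (r + 1) T))
      ≤ r * (1 / 16) ^ β + (1 - (β : ℝ) ^ r / Fintype.card A) ^ (16 * β) := by
  obtain ⟨c, rfl⟩ := Nat.exists_eq_add_of_le hm
  rw [Nat.succ_mul, add_assoc, Ex_split]
  have h4 : (0 : ℝ) < Fintype.card A := by exact_mod_cast Fintype.card_pos
  have h5 : (0 : ℝ) ≤ 1 - (β : ℝ) ^ r / Fintype.card A := by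
    rw [sub_nonneg, div_le_one h4]
    exact_mod_cast (show β ^ r ≤ Fintype.card A by omega)
  have h2 : Ex (r * (16 * β)) (fun T : Multiset A => Ex (16 * β + c) (fun M =>
      ind (a ∉ sums (r + 1) (T + M))))
      ≤ Ex (r * (16 * β)) (fun T : Multiset A => ind ((sums r T).card < β ^ r)
        + (1 - (β : ℝ) ^ r / Fintype.card A) ^ (16 * β)) := by
    refine Ex_mono (fun T _ => ?_)
    by_cases hT : (sums r T).card < β ^ r
    · rw [ind_pos hT]
      exact (Ex_le (fun _ _ => ind_le_one _)).trans (le_add_of_nonneg_right (by positivity))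
    · rw [ind_neg hT, zero_add]
      obtain ⟨B, hB, hBc⟩ := exists_subset_card_eq (not_lt.1 hT)
      have h6 : Ex (16 * β + c) (fun M => ind (a ∉ sums (r + 1) (T + M)))
          ≤ Ex (16 * β + c) (fun M : Multiset A => ind (∀ t ∈ M, ¬ (a - t ∈ B))) := by
        refine Ex_mono (fun M _ => ind_mono (fun hM t ht hb => hM (cov_subset hB M ?_)))
        simp only [cov, mem_filter, mem_univ, true_and]
        exact ⟨t, ht, hb⟩
      rw [Ex_all] at h6
      simp only [ind_not (a - _ ∈ B), expect_sub_distrib, expect_const univ_nonempty, av_mem,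
        hBc] at h6
      push_cast at h6
      refine h6.trans (pow_le_pow_of_le_one h5 ?_ (Nat.le_add_right _ _))
      have : (0 : ℝ) ≤ (β : ℝ) ^ r / Fintype.card A := by positivity
      linarith
  rw [Ex_add, Ex_const] at h2
  linarith [sums_card (A := A) β r hβ h]

lemma Ex_sum_zero (m : ℕ) :
    Ex (m + 1) (fun M : Multiset A => ind (M.sum = 0)) = 1 / Fintype.card A := by
  rw [Ex_succ', ← Ex_const (V := A) m (1 / Fintype.card A)]
  refine Ex_congr (fun M _ => ?_)
  have := av_mem ({M.sum} : Finset A) 0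
  simp only [card_singleton, Nat.cast_one] at this
  rw [← this]
  refine expect_congr rfl (fun v _ => ind_congr ?_)
  rw [Multiset.sum_cons, mem_singleton, zero_sub, neg_eq_iff_add_eq_zero]

lemma hash_bound (i j m : ℕ) (hi : 1 ≤ i) (him : i + j = m + 1) {η : ℝ}
    (h : ∀ a : A, Ex m (fun T : Multiset A => ind (a ∉ sums j T)) ≤ η) :
    ∃ γ : Multiset A → Prop, Hit i m γ ∧
      Ex (m + 1) (fun M => ind (γ M)) ≤ 1 / Fintype.card A + (m + 1) * (Fintype.card A * η) := by
  refine ⟨fun M => M.sum = 0 ∨ ∃ s T, M = s ::ₘ T ∧ ∃ a, a ∉ sums j T, fun S T hS hT => ?_, ?_⟩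
  · by_cases hc : ∃ a, a ∉ sums j T
    · obtain ⟨s, hs⟩ := Multiset.card_pos_iff_exists_mem.1 (show 0 < S.card by omega)
      exact Or.inr ⟨s, hs, Or.inr ⟨s, T, rfl, hc⟩⟩
    · push Not at hc
      have := hc (-S.sum)
      simp only [sums, mem_filter, mem_univ, true_and] at this
      obtain ⟨J, hJ, hJc, hJs⟩ := this
      exact Or.inl ⟨J, hJ, by omega, Or.inl (by simp [hJs])⟩
  · have h0 : ∀ I T : Multiset A, 0 ≤ (fun _ T => ∑ a, ind (a ∉ sums j T)) I T :=
      fun _ T => sum_nonneg (fun _ _ => ind_nonneg _)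
    have h1 : Ex (m + 1) (fun M : Multiset A =>
        ind (M.sum = 0 ∨ ∃ s T, M = s ::ₘ T ∧ ∃ a, a ∉ sums j T))
        ≤ Ex (m + 1) (fun M : Multiset A => ind (M.sum = 0)
          + splitSum 1 (fun _ T => ∑ a : A, ind (a ∉ sums j T)) M) := by
      refine Ex_mono (fun M _ => ?_)
      have h2 := splitSum_nonneg (r := 1) h0 M
      by_cases hM : M.sum = 0 ∨ ∃ s T, M = s ::ₘ T ∧ ∃ a, a ∉ sums j T
      · rw [ind_pos hM]
        rcases hM with hM | ⟨s, T, rfl, a, ha⟩
        · rw [ind_pos hM]; linarith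
        · have h3 := le_splitSum (r := 1) h0 {s} T rfl
          have h4 : ind (a ∉ sums j T) ≤ ∑ a, ind (a ∉ sums j T) :=
            single_le_sum (f := fun a => ind (a ∉ sums j T)) (fun _ _ => ind_nonneg _) (mem_univ a)
          rw [ind_pos ha] at h4
          rw [Multiset.singleton_add] at h3
          linarith [ind_nonneg ((s ::ₘ T).sum = 0)]
      · rw [ind_neg hM]
        linarith [ind_nonneg (M.sum = 0)]
    rw [Ex_add, Ex_sum_zero, Ex_splitSum, Ex_const, Ex_sum, Nat.choose_one_right,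
      Nat.add_sub_cancel] at h1
    refine h1.trans ?_
    push_cast
    gcongr
    refine (sum_le_sum (fun a _ => h a)).trans ?_
    simp

theorem upper_codim (j : ℕ) (hj : 1 ≤ j) : ∃ C : ℝ, ∀ᶠ m : ℕ in atTop, ∀ p : ℝ,
    Tendsto (fun n : ℕ => (exF (m + 1) (m + 1 - j) n : ℝ) / n.choose (m + 1)) atTop (𝓝 p) →
    1 - p ≤ C * Real.log (m + 1) / (m + 1) ^ j := by
  obtain ⟨r, rfl⟩ : ∃ r, j = r + 1 := ⟨j - 1, by omega⟩
  set D : ℝ := 2 * r + 3 with hD
  have hD0 : 0 < D := by positivity
  set E : ℝ := 32 * (r + 1) with hE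
  have hE0 : 0 < E := by positivity
  refine ⟨2 * D * E ^ (r + 1) + 2, ?_⟩
  have hlog : ∀ᶠ m : ℕ in atTop, Real.log (m + 1) ≤ (128 * D * E)⁻¹ * (m + 1) := by
    have h1 := (Real.isLittleO_log_id_atTop.bound (show 0 < (128 * D * E)⁻¹ by positivity))
    have h2 : Tendsto (fun m : ℕ => (m : ℝ) + 1) atTop atTop :=
      tendsto_atTop_add_const_right _ _ tendsto_natCast_atTop_atTop
    filter_upwards [h2.eventually h1] with m hm
    rw [id, Real.norm_of_nonneg (show (0 : ℝ) ≤ m + 1 by positivity)] at hm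
    exact (le_abs_self _).trans hm
  filter_upwards [hlog, eventually_ge_atTop (32 * (r + 1) + 2)] with m hm1 hm2 p hp
  set k : ℝ := m + 1 with hk
  have hm3 : 32 * ((r : ℝ) + 1) + 2 ≤ m := by exact_mod_cast hm2
  have hr0 : (0 : ℝ) ≤ r := by positivity
  set L := Real.log k with hL
  have hL1 : 1 ≤ L := by
    rw [hL, Real.le_log_iff_exp_le (by linarith)]
    linarith [Real.exp_one_lt_d9]
  set β := m / (16 * (r + 1)) with hβ
  have hβ1 : (r + 1) * (16 * β) ≤ m := by
    have := Nat.div_mul_le_self m (16 * (r + 1))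
    nlinarith
  have hβ2 : k ≤ E * β := by
    have h1 : m < 16 * (r + 1) * (β + 1) := Nat.lt_mul_div_succ m (by omega)
    have h2 : (m : ℝ) + 1 ≤ 16 * (r + 1) * (β + 1) := by exact_mod_cast h1
    nlinarith
  have hβ3 : 128 * D * L ≤ β := by
    rw [← div_eq_inv_mul, le_div_iff₀ (by positivity)] at hm1
    have : E * (128 * D * L) ≤ E * β := by nlinarith
    exact le_of_mul_le_mul_left this hE0
  have hβ4 : (1 : ℝ) ≤ β := by nlinarith
  have hβk : (β : ℝ) ≤ k := by
    have : β ≤ m := Nat.div_le_self _ _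
    have : (β : ℝ) ≤ m := by exact_mod_cast this
    linarith
  have hDL : 1 ≤ D * L := by nlinarith
  set N := ⌊(β : ℝ) ^ (r + 1) / (D * L)⌋₊ with hN
  have hN1 : (N : ℝ) ≤ (β : ℝ) ^ (r + 1) / (D * L) := Nat.floor_le (by positivity)
  have hN2 : (β : ℝ) ^ (r + 1) / (D * L) < N + 1 := Nat.lt_floor_add_one _
  have hβr : (1 : ℝ) ≤ (β : ℝ) ^ r := one_le_pow₀ hβ4
  have hN3 : 128 * (β : ℝ) ^ r ≤ (β : ℝ) ^ (r + 1) / (D * L) := by
    rw [le_div_iff₀ (by positivity), pow_succ]; nlinarith
  have hN4 : 64 * (β : ℝ) ^ r ≤ N := by linarith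
  have hN0 : (0 : ℝ) < N := by linarith
  have : NeZero N := ⟨by exact_mod_cast hN0.ne'⟩
  have hk0 : 0 < k := by linarith
  have hexp : Real.exp (-(D * L)) = (k ^ (2 * r + 3))⁻¹ := by
    rw [Real.exp_neg, hD, show (2 * (r : ℝ) + 3) = ((2 * r + 3 : ℕ) : ℝ) by push_cast; ring,
      Real.exp_nat_mul, hL, Real.exp_log hk0]
  obtain ⟨γ, h1, h2⟩ := hash_bound (A := ZMod N) (m + 1 - (r + 1)) (r + 1) m (by omega) (by omega)
    (η := 2 * (k ^ (2 * r + 3))⁻¹) (fun a => by
      refine (miss_le β r m (by exact_mod_cast hβ4)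
        (by rw [ZMod.card]; exact_mod_cast hN4) hβ1 a).trans ?_
      rw [ZMod.card, ← hexp]
      have h3 : (1 - (β : ℝ) ^ r / N) ^ (16 * β) ≤ Real.exp (-(D * L)) := by
        have h4 : (0 : ℝ) ≤ 1 - (β : ℝ) ^ r / N := by
          rw [sub_nonneg, div_le_one hN0]; linarith
        refine (pow_le_pow_left₀ h4 (Real.one_sub_le_exp_neg _) _).trans ?_
        rw [← Real.exp_nat_mul, Real.exp_le_exp]
        rw [le_div_iff₀ (by positivity), pow_succ] at hN1
        have h5 : D * L ≤ β * ((β : ℝ) ^ r / N) := by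
          rw [← mul_div_assoc, le_div_iff₀ hN0]; linarith
        push_cast
        nlinarith
      have h4 : (r : ℝ) * (1 / 16) ^ β ≤ Real.exp (-(D * L)) := by
        have h5 : (1 / 16 : ℝ) ≤ Real.exp (-1) := by
          rw [Real.exp_neg, one_div]
          exact inv_anti₀ (Real.exp_pos _) (by linarith [Real.exp_one_lt_d9])
        have h6 : (1 / 16 : ℝ) ^ β ≤ Real.exp (-(D * L) + -L) := by
          refine (pow_le_pow_left₀ (by norm_num) h5 _).trans ?_
          rw [← Real.exp_nat_mul, Real.exp_le_exp]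
          nlinarith
        rw [Real.exp_add, Real.exp_neg L, hL, Real.exp_log hk0, ← hL] at h6
        have h7 : (r : ℝ) * k⁻¹ ≤ 1 := by
          rw [← div_eq_mul_inv, div_le_one hk0]; linarith
        calc (r : ℝ) * (1 / 16) ^ β ≤ r * (Real.exp (-(D * L)) * k⁻¹) := by gcongr
          _ = Real.exp (-(D * L)) * (r * k⁻¹) := by ring
          _ ≤ _ := mul_le_of_le_one_right (Real.exp_pos _).le h7
      linarith)
  refine (label_transfer hp (ZMod N) γ h1).trans (h2.trans ?_)
  rw [ZMod.card, ← hk]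
  have h3 : (1 : ℝ) / N ≤ 2 * D * E ^ (r + 1) * L / k ^ (r + 1) := by
    rw [div_le_div_iff₀ hN0 (by positivity), one_mul]
    have h4 : k ^ (r + 1) ≤ E ^ (r + 1) * (β : ℝ) ^ (r + 1) := by
      rw [← mul_pow]; exact pow_le_pow_left₀ hk0.le hβ2 _
    have h5 : (β : ℝ) ^ (r + 1) ≤ 2 * N * (D * L) := by
      rw [div_lt_iff₀ (by positivity)] at hN2
      nlinarith
    have h6 : (0 : ℝ) < E ^ (r + 1) := by positivity
    nlinarith [mul_le_mul_of_nonneg_left h5 h6.le]
  have h4 : k * (N * (2 * (k ^ (2 * r + 3))⁻¹)) ≤ 2 * L / k ^ (r + 1) := by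
    have h5 : (N : ℝ) ≤ k ^ (r + 1) :=
      hN1.trans ((div_le_self (by positivity) hDL).trans (pow_le_pow_left₀ (by positivity) hβk _))
    calc k * (N * (2 * (k ^ (2 * r + 3))⁻¹)) ≤ k * (k ^ (r + 1) * (2 * (k ^ (2 * r + 3))⁻¹)) := by
          gcongr
      _ = 2 * 1 / k ^ (r + 1) := by field_simp; ring
      _ ≤ _ := by gcongr
  rw [add_mul (2 * D * E ^ (r + 1)), add_div]
  linarith

end Pool.Agent.P.MP_7badbe_co
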