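import Pool.Agent.P.MP_7badbe_co.Ex

set_option autoImplicit false

open Finset
open scoped BigOperators

namespace Pool.Agent.P.MP_7badbe_co

variable {V : Type} [Fintype V] [Nonempty V]

/-- `g` meets every copy of the configuration with `|S| = i`, `|T| = m` -/
def Hit {V : Type} (i m : ℕ) (g : Multiset V → Prop) : Prop :=
  ∀ S T : Multiset V, S.card = i → T.card = m →
    (∃ J ≤ T, i + J.card = m + 1 ∧ g (S + J)) ∨ ∃ s ∈ S, g (s ::ₘ T)

lemma var_le (r : ℕ) (F : Multiset V → ℝ) (h : V → ℝ)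
    (hh : ∀ v M, (F (v ::ₘ M) - F M) ^ 2 ≤ h v) :
    Ex r (fun M => (F M - Ex r F) ^ 2) ≤ r * 𝔼 v, h v := by
  cases r with
  | zero => simp
  | succ r =>
    have h1 := efron r F F
    have h2 : 𝔼 v, Ex r (fun M => (F (v ::ₘ M) - F M) ^ 2) ≤ 𝔼 v, h v :=
      expect_le_expect (fun v _ => Ex_le (fun M _ => hh v M))
    have h3 : (0 : ℝ) ≤ r + 1 := by positivity
    rw [Ex_var]
    push_cast
    nlinarith [mul_le_mul_of_nonneg_left h2 h3]

lemma av_ind_le_one (P : V → Prop) : 𝔼 v, ind (P v) ≤ 1 :=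
  expect_le univ_nonempty (fun _ _ => ind_le_one _)

omit [Nonempty V] in
lemma av_ind_nonneg (P : V → Prop) : 0 ≤ 𝔼 v, ind (P v) :=
  expect_nonneg (fun _ _ => ind_nonneg _)

lemma avoid (r n : ℕ) (P : V → Multiset V → Prop) {W B θ : ℝ} (hW : 0 < W) (hW1 : 2 * W ≤ 1)
    (h1 : Ex n (fun T => 𝔼 v, ind (P v T)) ≤ W)
    (h2 : 𝔼 v, (Ex n (fun T => ind (P v T))) ^ 2 ≤ B) (hθ0 : 0 < θ)
    (hθ : θ ≤ (1 - 2 * W) ^ r / 2) :
    Ex r (fun M => ind (Ex n (fun T => ind (∀ s ∈ M, ¬ P s T)) ≤ θ / 2)) ≤ 4 * r * B / θ ^ 2 := by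
  set U : Multiset V → ℝ := fun M => Ex n (fun T => ind (∀ s ∈ M, ¬ P s T)) with hU
  have hmean : θ ≤ Ex r U := by
    rw [hU, Ex_comm]
    simp only [Ex_all, ind_not, expect_sub_distrib, expect_const univ_nonempty]
    have h3 := Ex_mono (m := n) (fun T _ =>
      tangent r (av_ind_nonneg (fun v => P v T)) (av_ind_le_one (fun v => P v T)) hW hW1)
    rw [Ex_mul, Ex_sub, Ex_const, Ex_mul] at h3
    have h4 : (2 * W)⁻¹ * Ex n (fun T => 𝔼 v, ind (P v T)) ≤ 1 / 2 := by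
      rw [← div_eq_inv_mul, div_le_iff₀ (by linarith)]; linarith
    have h0 : 0 ≤ (1 - 2 * W) ^ r := pow_nonneg (by linarith) _
    nlinarith
  have hvar := var_le r U (fun v => (Ex n (fun T => ind (P v T))) ^ 2) (fun v M => by
    have h3 : U M - U (v ::ₘ M) ≤ Ex n (fun T => ind (P v T)) := by
      simp only [hU]
      rw [← Ex_sub]
      refine Ex_mono (fun T _ => ?_)
      rw [Multiset.forall_mem_cons, ind_and, ind_not]
      nlinarith [ind_nonneg (P v T), ind_le_one (∀ s ∈ M, ¬ P s T)]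
    have h4 : U (v ::ₘ M) ≤ U M :=
      Ex_mono (fun T _ => ind_mono (fun h s hs => h s (Multiset.mem_cons_of_mem hs)))
    nlinarith)
  have h5 : Ex r (fun M => ind (U M ≤ θ / 2))
      ≤ Ex r (fun M => 4 / θ ^ 2 * (U M - Ex r U) ^ 2) := by
    refine Ex_mono (fun M _ => ?_)
    by_cases h : U M ≤ θ / 2
    · rw [ind_pos h, div_mul_eq_mul_div, le_div_iff₀ (by positivity)]
      nlinarith
    · rw [ind_neg h]; positivity
  rw [Ex_mul] at h5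
  refine h5.trans ?_
  have h6 : (r : ℝ) * 𝔼 v, (Ex n (fun T => ind (P v T))) ^ 2 ≤ r * B :=
    mul_le_mul_of_nonneg_left h2 (by positivity)
  rw [div_mul_eq_mul_div]
  exact div_le_div_of_nonneg_right (by linarith) (by positivity)

lemma core_one (r q : ℕ) (g : Multiset V → Prop) (hg : Hit (r + q) (r + q) g) {δ θ : ℝ}
    (hδ : 0 < δ) (hδ1 : 8 * δ ≤ 1) (hE : Ex (r + q + 1) (fun M => ind (g M)) ≤ δ) (hθ0 : 0 < θ)
    (hθ : θ ≤ (1 - 8 * δ) ^ (r + q) / 2)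
    (h1 : 4 * r * (δ ^ 2 + δ / (r + q + 1)) / θ ^ 2 < 3 / 4)
    (h2 : 4 * (r + q) * ((4 * δ) ^ 2 + 4 * δ / (q + 1)) / θ ^ 2 + 2 * q / θ * δ < θ / 2) :
    False := by
  have hd : Ex (r + q) (fun T => 𝔼 v, ind (g (v ::ₘ T))) ≤ δ := by
    rwa [Ex_succ'] at hE
  have hθ' : θ ≤ (1 - 2 * (4 * δ)) ^ r / 2 := by
    refine hθ.trans ?_
    have := pow_le_pow_of_le_one (a := 1 - 8 * δ) (by linarith) (by linarith) (Nat.le_add_right r q)
    rw [show 2 * (4 * δ) = 8 * δ by ring]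
    linarith
  have hA := avoid r (r + q) (fun s T => g (s ::ₘ T)) (W := 4 * δ) (by linarith) (by linarith)
    (by linarith) (hoeff_ind _ g hE) hθ0 hθ'
  push_cast at hA
  obtain ⟨R, hR, hRp⟩ := exists_pos (m := r) (F := fun R =>
      1 - (4 * δ)⁻¹ * Ex (q + 1) (fun Q => ind (g (R + Q)))
      - ind (Ex (r + q) (fun T => ind (∀ s ∈ R, ¬ g (s ::ₘ T))) ≤ θ / 2)) (by
    rw [Ex_sub, Ex_sub, Ex_const, Ex_mul, ← Ex_split r (q + 1) (fun M => ind (g M))]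
    have h4 : (4 * δ)⁻¹ * Ex (r + (q + 1)) (fun M => ind (g M)) ≤ 1 / 4 := by
      rw [← div_eq_inv_mul, div_le_iff₀ (by linarith), ← add_assoc]; linarith
    linarith)
  have hw0 : 0 ≤ (4 * δ)⁻¹ * Ex (q + 1) (fun Q => ind (g (R + Q))) :=
    mul_nonneg (by positivity) (Ex_nonneg (fun _ _ => ind_nonneg _))
  have hw : Ex (q + 1) (fun Q => ind (g (R + Q))) ≤ 4 * δ := by
    have := ind_nonneg (Ex (r + q) (fun T => ind (∀ s ∈ R, ¬ g (s ::ₘ T))) ≤ θ / 2)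
    have h5 : (4 * δ)⁻¹ * Ex (q + 1) (fun Q => ind (g (R + Q))) ≤ 1 := by linarith
    rwa [← div_eq_inv_mul, div_le_one (by linarith)] at h5
  have hu : θ / 2 < Ex (r + q) (fun T => ind (∀ s ∈ R, ¬ g (s ::ₘ T))) := by
    by_contra hc
    rw [ind_pos (not_lt.1 hc)] at hRp
    linarith
  have hB := avoid (r + q) q (fun t Q => g (R + (t ::ₘ Q))) (W := 4 * δ) (by linarith)
    (by linarith) (by rwa [Ex_succ'] at hw) (hoeff_ind _ (fun Q => g (R + Q)) hw) hθ0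
    (by rwa [show 2 * (4 * δ) = 8 * δ by ring])
  push_cast at hB
  obtain ⟨T, hT, hTp⟩ := exists_pos (m := r + q) (F := fun T =>
      ind (∀ s ∈ R, ¬ g (s ::ₘ T))
      - ind (Ex q (fun Q => ind (∀ t ∈ T, ¬ g (R + (t ::ₘ Q)))) ≤ θ / 2)
      - 2 * q / θ * 𝔼 v, ind (g (v ::ₘ T))) (by
    rw [Ex_sub, Ex_sub, Ex_mul]
    have h4 : 2 * q / θ * Ex (r + q) (fun T => 𝔼 v, ind (g (v ::ₘ T))) ≤ 2 * q / θ * δ :=
      mul_le_mul_of_nonneg_left hd (by positivity)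
    linarith)
  have hd0 : 0 ≤ 2 * q / θ * 𝔼 v, ind (g (v ::ₘ T)) :=
    mul_nonneg (by positivity) (av_ind_nonneg _)
  have hy0 := ind_nonneg (Ex q (fun Q => ind (∀ t ∈ T, ¬ g (R + (t ::ₘ Q)))) ≤ θ / 2)
  have hR1 := ind_le_one (∀ s ∈ R, ¬ g (s ::ₘ T))
  have hRT : ∀ s ∈ R, ¬ g (s ::ₘ T) := of_ind_pos (by linarith)
  have hy : θ / 2 < Ex q (fun Q => ind (∀ t ∈ T, ¬ g (R + (t ::ₘ Q)))) := by
    by_contra hc
    rw [ind_pos (not_lt.1 hc)] at hTp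
    linarith
  obtain ⟨Q, hQ, hQp⟩ := exists_pos (m := q) (F := fun Q =>
      ind (∀ t ∈ T, ¬ g (R + (t ::ₘ Q))) - (Q.map (fun s => ind (g (s ::ₘ T)))).sum) (by
    rw [Ex_sub, Ex_mapsum]
    have h5 : 2 * q / θ * 𝔼 v, ind (g (v ::ₘ T)) < 1 := by linarith
    rw [div_mul_eq_mul_div, div_lt_one hθ0] at h5
    linarith)
  have hQ1 := ind_le_mapsum (fun s => g (s ::ₘ T)) Q
  have hQ2 := ind_nonneg (∃ s ∈ Q, g (s ::ₘ T))
  have hQ3 := ind_le_one (∀ t ∈ T, ¬ g (R + (t ::ₘ Q)))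
  have hTQ : ∀ t ∈ T, ¬ g (R + (t ::ₘ Q)) := of_ind_pos (by linarith)
  rcases hg (R + Q) T (by simp [hR, hQ]) hT with ⟨J, hJ, hc, hJg⟩ | ⟨s, hs, hsg⟩
  · obtain ⟨t, rfl⟩ := Multiset.card_eq_one.1 (show J.card = 1 by omega)
    refine hTQ t (Multiset.singleton_le.1 hJ) ?_
    rwa [add_assoc, add_comm Q, Multiset.singleton_add] at hJg
  · rcases Multiset.mem_add.1 hs with h | h
    · exact hRT s h hsg
    · rw [ind_pos ⟨s, h, hsg⟩] at hQ1
      linarith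

lemma one_sub_pow_ge {x : ℝ} (hx0 : 0 ≤ x) (hx : 2 * x ≤ 1) (n : ℕ) :
    Real.exp (-(2 * x * n)) ≤ (1 - x) ^ n := by
  have h1 : Real.exp (-(2 * x)) ≤ 1 - x := by
    rw [Real.exp_neg, inv_le_comm₀ (Real.exp_pos _) (by linarith)]
    have h2 := Real.add_one_le_exp (2 * x)
    refine le_trans ?_ h2
    rw [inv_le_iff_one_le_mul₀ (by linarith)]
    nlinarith
  calc Real.exp (-(2 * x * n)) = Real.exp (-(2 * x)) ^ n := by
        rw [← Real.exp_nat_mul]; congr 1; ring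
    _ ≤ _ := pow_le_pow_left₀ (Real.exp_pos _).le h1 n

theorem lower_one (m : ℕ) (hm : 1 ≤ m) (g : Multiset V → Prop) (hg : Hit m m g) :
    1 / 10000 * Real.log (m + 1) / (m + 1) ≤ Ex (m + 1) (fun M => ind (g M)) := by
  by_contra hc
  have hE := (not_le.1 hc).le
  set q := Nat.sqrt (m + 1) with hq
  have hqm : q ≤ m := by
    have := Nat.sqrt_lt_self (show 1 < m + 1 by omega)
    omega
  obtain ⟨r, hr⟩ := Nat.exists_eq_add_of_le' hqm
  set k : ℝ := m + 1 with hk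
  have hm1 : (1 : ℝ) ≤ m := by exact_mod_cast hm
  have hk1 : 1 < k := by linarith
  set L := Real.log k with hL
  have hL0 : 0 < L := Real.log_pos hk1
  set z := Real.exp (L / 8) with hz
  have hz8 : z ^ 8 = k := by
    rw [hz, ← Real.exp_nat_mul, show ((8 : ℕ) : ℝ) * (L / 8) = L by push_cast; ring, hL,
      Real.exp_log (by linarith)]
  have hz1 : L / 8 + 1 ≤ z := Real.add_one_le_exp _
  have hz0 : 1 < z := by linarith
  have hq1 : (q : ℝ) ≤ z ^ 4 := by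
    have h1 : q ^ 2 ≤ m + 1 := Nat.sqrt_le' _
    have h2 : (q : ℝ) ^ 2 ≤ (z ^ 4) ^ 2 := by
      rw [← pow_mul, hz8, hk]; exact_mod_cast h1
    exact (pow_le_pow_iff_left₀ (by positivity) (by positivity) two_ne_zero).1 h2
  have hq2 : z ^ 4 ≤ (q : ℝ) + 1 := by
    have h1 : m + 1 < (q + 1) ^ 2 := Nat.lt_succ_sqrt' _
    have h2 : (z ^ 4) ^ 2 ≤ ((q : ℝ) + 1) ^ 2 := by
      rw [← pow_mul, hz8, hk]; exact_mod_cast h1.le
    exact (pow_le_pow_iff_left₀ (by positivity) (by positivity) two_ne_zero).1 h2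
  set δ := 1 / 10000 * L / k with hδ
  have hδ0 : 0 < δ := by positivity
  have hδk : δ * z ^ 8 = 1 / 10000 * L := by rw [hz8, hδ]; field_simp
  have hδz : δ * z ^ 7 ≤ 1 / 1000 := by
    have : δ * z ^ 7 * z ≤ 1 / 1000 * z := by nlinarith
    exact le_of_mul_le_mul_right this (by linarith)
  have hzp : ∀ n : ℕ, 1 ≤ z ^ n := fun n => one_le_pow₀ hz0.le
  have hδ1 : δ ≤ 1 / 1000 := by nlinarith [hzp 7]
  have hrq : (r : ℝ) + q + 1 = z ^ 8 := by rw [hz8, hk, hr]; push_cast; ring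
  have hr0 : (0 : ℝ) ≤ r := by positivity
  have hq0 : (0 : ℝ) ≤ q := by positivity
  refine core_one r q g (hr ▸ hg) (θ := 1 / (2 * z)) hδ0 (by linarith) (hr ▸ hE) (by positivity)
    ?_ ?_ ?_
  · have h1 := one_sub_pow_ge (x := 8 * δ) (by positivity) (by linarith) (r + q)
    have h2 : z⁻¹ ≤ Real.exp (-(2 * (8 * δ) * ((r + q : ℕ) : ℝ))) := by
      rw [hz, ← Real.exp_neg, Real.exp_le_exp]
      push_cast
      nlinarith
    rw [show 1 / (2 * z) = z⁻¹ / 2 by field_simp]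
    linarith
  · rw [hrq, div_lt_iff₀ (by positivity)]
    have h1 : (r : ℝ) * (δ ^ 2 + δ / z ^ 8) ≤ z ^ 8 * (δ ^ 2 + δ / z ^ 8) :=
      mul_le_mul_of_nonneg_right (by linarith) (by positivity)
    have h2 : z ^ 8 * (δ ^ 2 + δ / z ^ 8) * z ^ 2 = (δ * z ^ 5) ^ 2 + δ * z ^ 2 := by
      field_simp
    have h3 : δ * z ^ 5 ≤ 1 / 1000 := by
      have := pow_le_pow_right₀ hz0.le (show 5 ≤ 7 by norm_num); nlinarith
    have h4 : δ * z ^ 2 ≤ 1 / 1000 := by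
      have := pow_le_pow_right₀ hz0.le (show 2 ≤ 7 by norm_num); nlinarith
    have h5 : 0 ≤ δ * z ^ 5 := by positivity
    have h6 : z ^ 8 * (δ ^ 2 + δ / z ^ 8) * z ^ 2 < 3 / 64 := by nlinarith
    have h7 : z ^ 8 * (δ ^ 2 + δ / z ^ 8) < 3 / 64 / z ^ 2 := by
      rwa [lt_div_iff₀ (by positivity)]
    have h8 : 3 / 4 * (1 / (2 * z)) ^ 2 = 4 * (3 / 64 / z ^ 2) := by field_simp; norm_num
    rw [h8]
    linarith
  · have h1 : 4 * δ / (q + 1) ≤ 4 * δ / z ^ 4 := by gcongr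
    have h2 : 4 * ((r : ℝ) + q) * ((4 * δ) ^ 2 + 4 * δ / (q + 1)) / (1 / (2 * z)) ^ 2
        ≤ 4 * z ^ 8 * ((4 * δ) ^ 2 + 4 * δ / z ^ 4) / (1 / (2 * z)) ^ 2 := by
      gcongr; linarith
    have h3 : 2 * q / (1 / (2 * z)) * δ ≤ 2 * z ^ 4 / (1 / (2 * z)) * δ := by gcongr
    have h4 : (4 * z ^ 8 * ((4 * δ) ^ 2 + 4 * δ / z ^ 4) / (1 / (2 * z)) ^ 2
        + 2 * z ^ 4 / (1 / (2 * z)) * δ) * z
        = 256 * (δ * z ^ 7) * (δ * z ^ 4) + 64 * (δ * z ^ 7) + 4 * (δ * z ^ 6) := by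
      field_simp; ring
    have h5 : δ * z ^ 4 ≤ 1 / 1000 := by
      have := pow_le_pow_right₀ hz0.le (show 4 ≤ 7 by norm_num); nlinarith
    have h6 : δ * z ^ 6 ≤ 1 / 1000 := by
      have := pow_le_pow_right₀ hz0.le (show 6 ≤ 7 by norm_num); nlinarith
    have h7 : 0 ≤ δ * z ^ 4 := by positivity
    have h8 : 0 ≤ δ * z ^ 7 := by positivity
    have h9 : (4 * z ^ 8 * ((4 * δ) ^ 2 + 4 * δ / z ^ 4) / (1 / (2 * z)) ^ 2
        + 2 * z ^ 4 / (1 / (2 * z)) * δ) < 1 / 4 / z := by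
      rw [lt_div_iff₀ (by linarith), h4]; nlinarith
    rw [show 1 / (2 * z) / 2 = 1 / 4 / z by field_simp; norm_num]
    linarith

end Pool.Agent.P.MP_7badbe_co
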