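import Pool.Agent.P.MP_7badbe_co.Lower1

set_option autoImplicit false

open Finset
open scoped BigOperators

namespace Pool.Agent.P.MP_7badbe_co

variable {V : Type} [Fintype V] [Nonempty V]

/-- no sub-multiset of size `j` satisfies `L` -/
def Indep {V : Type} (L : Multiset V → Prop) (j : ℕ) (T : Multiset V) : Prop :=
  ∀ J ≤ T, J.card = j → ¬ L J

omit [Fintype V] [Nonempty V] in
lemma indep_step (L : Multiset V → Prop) (j : ℕ) (v : V) (M : Multiset V) :
    ind (Indep L (j + 1) M)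
      - splitSum j (fun I J => ind (L (v ::ₘ I)) * ind (Indep L (j + 1) J)) M
      ≤ ind (Indep L (j + 1) (v ::ₘ M)) := by
  classical
  have h0 : ∀ I J, 0 ≤ ind (L (v ::ₘ I)) * ind (Indep L (j + 1) J) :=
    fun I J => mul_nonneg (ind_nonneg _) (ind_nonneg _)
  have h1 := splitSum_nonneg (r := j) h0 M
  by_cases hM : Indep L (j + 1) M
  · by_cases hv : Indep L (j + 1) (v ::ₘ M)
    · rw [ind_pos hM, ind_pos hv]; linarith
    · rw [ind_pos hM, ind_neg hv]
      unfold Indep at hv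
      push Not at hv
      obtain ⟨J, hJ, hc, hL⟩ := hv
      have hvJ : v ∈ J := by
        by_contra hn
        exact hM J ((Multiset.le_cons_of_notMem hn).1 hJ) hc hL
      obtain ⟨I, rfl⟩ := Multiset.exists_cons_of_mem hvJ
      obtain ⟨J', rfl⟩ := Multiset.le_iff_exists_add.1 ((Multiset.cons_le_cons_iff v).1 hJ)
      have h2 := le_splitSum (r := j) h0 I J' (by simpa using hc)
      rw [ind_pos hL, ind_pos (show Indep L (j + 1) J' from
        fun K hK => hM K (hK.trans (Multiset.le_add_left _ _)))] at h2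
      linarith
  · rw [ind_neg hM]
    linarith [ind_nonneg (Indep L (j + 1) (v ::ₘ M))]

lemma indep_ge (L : Multiset V → Prop) (j m : ℕ) {x : ℝ} (hx0 : 0 ≤ x) (hx : 2 * x ≤ 1)
    (hj : 1 / 2 ≤ (1 - 2 * x) ^ j)
    (hd : (m : ℝ) ^ j * Ex (j + 1) (fun J => ind (L J)) ≤ x) :
    (1 - 2 * x) ^ m ≤ Ex m (fun T => ind (Indep L (j + 1) T)) := by
  set a : ℕ → ℝ := fun n => Ex n (fun T => ind (Indep L (j + 1) T)) with ha
  have ha0 : ∀ n, 0 ≤ a n := fun n => Ex_nonneg (fun _ _ => ind_nonneg _)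
  have hd0 : 0 ≤ Ex (j + 1) (fun J => ind (L J)) := Ex_nonneg (fun _ _ => ind_nonneg _)
  have hrec : ∀ n ≤ m, a n - x * a (n - j) ≤ a (n + 1) := by
    intro n hn
    have h1 : 𝔼 v, Ex n (fun M => ind (Indep L (j + 1) M)
      - splitSum j (fun I J => ind (L (v ::ₘ I)) * ind (Indep L (j + 1) J)) M) ≤ a (n + 1) :=
      expect_le_expect (fun v _ => Ex_mono (fun M _ => indep_step L j v M))
    simp only [Ex_sub, Ex_splitSum, Ex_mul, Ex_mul', expect_sub_distrib,
      expect_const univ_nonempty, ← mul_expect, ← expect_mul] at h1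
    rw [← Ex_succ j (fun J => ind (L J))] at h1
    have h2 : (n.choose j : ℝ) ≤ (m : ℝ) ^ j := by
      exact_mod_cast (Nat.choose_le_pow n j).trans (Nat.pow_le_pow_left hn j)
    have h3 : (n.choose j : ℝ) * Ex (j + 1) (fun J => ind (L J)) ≤ x :=
      (mul_le_mul_of_nonneg_right h2 hd0).trans hd
    have h4 := mul_le_mul_of_nonneg_right h3 (ha0 (n - j))
    simp only [ha] at h4 ⊢
    nlinarith
  have hQ : ∀ n ≤ m, ∀ t, (1 - 2 * x) ^ t * a (n - t) ≤ a n := by
    intro n
    induction n with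
    | zero =>
      intro _ t
      rw [Nat.zero_sub]
      exact mul_le_of_le_one_left (ha0 0) (pow_le_one₀ (by linarith) (by linarith))
    | succ n ih =>
      intro hn t
      have h1 := hrec n (by omega)
      have h2 := ih (by omega) j
      have h3 : a (n - j) ≤ 2 * a n := by nlinarith [ha0 (n - j)]
      have h4 : (1 - 2 * x) * a n ≤ a (n + 1) := by nlinarith
      cases t with
      | zero => simp
      | succ t =>
        rw [Nat.add_sub_add_right, pow_succ', mul_assoc]
        exact (mul_le_mul_of_nonneg_left (ih (by omega) t) (by linarith)).trans h4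
  have h1 := hQ m le_rfl m
  have h2 : a 0 = 1 := ind_pos (fun J hJ hc => by
    rw [Multiset.le_zero.1 hJ] at hc; simp at hc)
  rwa [Nat.sub_self, h2, mul_one] at h1

lemma Ex_self_mapsum (i m : ℕ) (g : Multiset V → Prop) :
    Ex i (fun S => Ex m (fun T => (S.map (fun s => ind (g (s ::ₘ T)))).sum))
      = i * Ex (m + 1) (fun M => ind (g M)) := by
  rw [Ex_comm]
  simp only [Ex_mapsum, Ex_mul]
  rw [Ex_succ']

theorem lower_two (i j m : ℕ) (hj : 1 ≤ j) (him : i + (j + 1) = m + 1) (g : Multiset V → Prop)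
    (hg : Hit i m g) :
    1 / (100 * j) * Real.log (m + 1) / (m + 1) ^ (j + 1) ≤ Ex (m + 1) (fun M => ind (g M)) := by
  by_contra hc
  have hE := (not_le.1 hc).le
  set k : ℝ := m + 1 with hk
  have hj1 : (1 : ℝ) ≤ j := by exact_mod_cast hj
  have hm1 : (1 : ℝ) ≤ m := by exact_mod_cast (show 1 ≤ m by omega)
  have hk1 : 1 < k := by linarith
  have hik : (i : ℝ) ≤ k := by rw [hk]; exact_mod_cast (show i ≤ m + 1 by omega)
  set L := Real.log k with hL
  have hL0 : 0 < L := Real.log_pos hk1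
  set δ := 1 / (100 * j) * L / k ^ (j + 1) with hδ
  have hδ0 : 0 < δ := by positivity
  obtain ⟨S, hS, hSp⟩ := exists_pos (m := i) (F := fun S =>
      1 - (3 * δ)⁻¹ * Ex (j + 1) (fun J => ind (g (S + J)))
      - (3 * k * δ)⁻¹ * Ex m (fun T => (S.map (fun s => ind (g (s ::ₘ T)))).sum)) (by
    rw [Ex_sub, Ex_sub, Ex_const, Ex_mul, Ex_mul, ← Ex_split i (j + 1) (fun M => ind (g M)),
      Ex_self_mapsum, him]
    have h0 : 0 ≤ Ex (m + 1) (fun M => ind (g M)) := Ex_nonneg (fun _ _ => ind_nonneg _)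
    have h4 : (3 * δ)⁻¹ * Ex (m + 1) (fun M => ind (g M)) ≤ 1 / 3 := by
      rw [← div_eq_inv_mul, div_le_iff₀ (by linarith)]; linarith
    have h5 : (3 * k * δ)⁻¹ * (i * Ex (m + 1) (fun M => ind (g M))) ≤ 1 / 3 := by
      rw [← div_eq_inv_mul, div_le_iff₀ (by positivity)]
      nlinarith [mul_le_mul hik hE h0 (by linarith)]
    linarith)
  have hs0 : ∀ T : Multiset V, 0 ≤ (S.map (fun s => ind (g (s ::ₘ T)))).sum :=
    fun T => (ind_nonneg _).trans (ind_le_mapsum _ S)
  have h1 : 0 ≤ (3 * δ)⁻¹ * Ex (j + 1) (fun J => ind (g (S + J))) :=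
    mul_nonneg (by positivity) (Ex_nonneg (fun _ _ => ind_nonneg _))
  have h2 : 0 ≤ (3 * k * δ)⁻¹ * Ex m (fun T => (S.map (fun s => ind (g (s ::ₘ T)))).sum) :=
    mul_nonneg (by positivity) (Ex_nonneg (fun T _ => hs0 T))
  have h3 : Ex (j + 1) (fun J => ind (g (S + J))) ≤ 3 * δ := by
    have h5 : (3 * δ)⁻¹ * Ex (j + 1) (fun J => ind (g (S + J))) ≤ 1 := by linarith
    rwa [← div_eq_inv_mul, div_le_one (by linarith)] at h5
  have h4 : Ex m (fun T => (S.map (fun s => ind (g (s ::ₘ T)))).sum) ≤ 3 * k * δ := by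
    have h5 : (3 * k * δ)⁻¹ * Ex m (fun T => (S.map (fun s => ind (g (s ::ₘ T)))).sum) ≤ 1 := by
      linarith
    rwa [← div_eq_inv_mul, div_le_one (by positivity)] at h5
  set x := k ^ j * (3 * δ) with hx
  have hx0 : 0 ≤ x := by positivity
  have hxk : x * k * j = 3 / 100 * L := by rw [hx, hδ, pow_succ]; field_simp
  set z := Real.exp (L / 2) with hz
  have hz2 : z ^ 2 = k := by
    rw [hz, ← Real.exp_nat_mul, show ((2 : ℕ) : ℝ) * (L / 2) = L by push_cast; ring, hL,
      Real.exp_log (by linarith)]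
  have hz1 : L / 2 + 1 ≤ z := Real.add_one_le_exp _
  have hz0 : 1 < z := by linarith
  have hxj : x * j ≤ 1 / 10 := by
    have : x * j * k ≤ 1 / 10 * k := by nlinarith
    exact le_of_mul_le_mul_right this (by linarith)
  have hx1 : x ≤ 1 / 10 := by nlinarith
  have hxL : x * k ≤ 3 / 100 * L := by nlinarith [mul_nonneg hx0 (show 0 ≤ k by linarith)]
  have h5 := indep_ge (fun J => g (S + J)) j m hx0 (by linarith) (by
    have := one_add_mul_le_pow (show (-2 : ℝ) ≤ -(2 * x) by linarith) j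
    rw [← sub_eq_add_neg] at this
    linarith) (by
    refine mul_le_mul (pow_le_pow_left₀ (by linarith) (by linarith) _) h3
      (Ex_nonneg (fun _ _ => ind_nonneg _)) (by positivity))
  have h6 : Ex m (fun T => ind (Indep (fun J => g (S + J)) (j + 1) T))
      ≤ Ex m (fun T => (S.map (fun s => ind (g (s ::ₘ T)))).sum) := by
    refine Ex_mono (fun T hT => le_trans (ind_mono (fun hI => ?_)) (ind_le_mapsum _ S))
    rcases hg S T hS hT with ⟨J, hJ, hc, hJg⟩ | h
    · exact absurd hJg (hI J hJ (by omega))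
    · exact h
  have h7 := one_sub_pow_ge (x := 2 * x) (by linarith) (by linarith) m
  have h8 : z⁻¹ ≤ Real.exp (-(2 * (2 * x) * m)) := by
    rw [hz, ← Real.exp_neg, Real.exp_le_exp]
    nlinarith
  have h9 : 3 * k * δ * k ≤ x * k := by
    have : k ≤ k ^ j := le_self_pow₀ hk1.le (by omega)
    rw [hx]
    gcongr ?_ * k
    nlinarith
  have h10 : z⁻¹ * k ≤ 3 / 100 * L :=
    le_trans (mul_le_mul_of_nonneg_right (by linarith) (by linarith)) (h9.trans hxL)
  rw [← hz2, show z⁻¹ * z ^ 2 = z by field_simp] at h10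
  linarith

theorem lower_avg (i m : ℕ) (hi : i ≤ m + 1) (g : Multiset V → Prop) (hg : Hit i m g) :
    1 ≤ (m.choose (m + 1 - i) + i) * Ex (m + 1) (fun M => ind (g M)) := by
  have h1 : Ex i (fun _ : Multiset V => Ex m (fun _ : Multiset V => (1 : ℝ)))
      ≤ Ex i (fun S => Ex m (fun T => splitSum (m + 1 - i) (fun J _ => ind (g (S + J))) T
        + (S.map (fun s => ind (g (s ::ₘ T)))).sum)) := by
    refine Ex_mono (fun S hS => Ex_mono (fun T hT => ?_))
    have h2 := splitSum_nonneg (r := m + 1 - i) (Φ := fun J _ => ind (g (S + J)))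
      (fun _ _ => ind_nonneg _) T
    have h3 := ind_le_mapsum (fun s => g (s ::ₘ T)) S
    rcases hg S T hS hT with ⟨J, hJ, hc, hJg⟩ | h
    · obtain ⟨J', rfl⟩ := Multiset.le_iff_exists_add.1 hJ
      have h4 := le_splitSum (r := m + 1 - i) (Φ := fun J _ => ind (g (S + J)))
        (fun _ _ => ind_nonneg _) J J' (by omega)
      rw [ind_pos hJg] at h4
      linarith [ind_nonneg (∃ s ∈ S, g (s ::ₘ (J + J')))]
    · rw [ind_pos h] at h3
      linarith
  simp only [Ex_const, Ex_add, Ex_splitSum, Ex_mul, Ex_self_mapsum] at h1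
  rw [← Ex_split i (m + 1 - i) (fun M => ind (g M)), Nat.add_sub_cancel' hi] at h1
  linarith

end Pool.Agent.P.MP_7badbe_co
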