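import Pool.Agent.P.MP_7badbe_co.Lower2
import Pool.Agent.P.MP_7badbe_co.Defs

set_option autoImplicit false

open Finset Filter Topology
open scoped BigOperators

namespace Pool.Agent.P.MP_7badbe_co

lemma le_exF {k i n : ℕ} {H : Finset (Finset (Fin n))} (h1 : ∀ e ∈ H, e.card = k)
    (h2 : IsFree k i H) : H.card ≤ exF k i n :=
  le_csSup ⟨Fintype.card (Finset (Fin n)), by rintro _ ⟨H, _, _, rfl⟩; exact card_le_univ H⟩
    ⟨H, h1, h2, rfl⟩

lemma exists_exF {m i : ℕ} (hi : 1 ≤ i) (n : ℕ) : ∃ H : Finset (Finset (Fin n)),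
    (∀ e ∈ H, e.card = m + 1) ∧ IsFree (m + 1) i H ∧ H.card = exF (m + 1) i n := by
  refine Nat.sSup_mem (s := {c | ∃ H : Finset (Finset (Fin n)),
      (∀ e ∈ H, e.card = m + 1) ∧ IsFree (m + 1) i H ∧ H.card = c}) ⟨0, ∅, by simp, ?_, rfl⟩
    ⟨Fintype.card (Finset (Fin n)), by rintro _ ⟨H, _, _, rfl⟩; exact card_le_univ H⟩
  rintro ⟨S, T, hd, hS, hT, h⟩
  obtain ⟨s, hs⟩ := card_pos.1 (show 0 < S.card by omega)
  have := h (insert s T) (insert_subset (mem_union_left _ hs) subset_union_right)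
    (by rw [card_insert_of_notMem (disjoint_left.1 hd hs), hT]; simp)
    (Or.inr (subset_insert _ _))
  simp at this

lemma exF_step {m i : ℕ} (hi : 1 ≤ i) (n : ℕ) :
    exF (m + 1) i (n + 1) * (n - m) ≤ (n + 1) * exF (m + 1) i n := by
  obtain ⟨H, h1, h2, h3⟩ := exists_exF (m := m) hi (n + 1)
  have h4 : ∀ v : Fin (n + 1), (H.filter (fun e => v ∉ e)).card ≤ exF (m + 1) i n := by
    intro v
    set H' : Finset (Finset (Fin n)) := univ.filter (fun e => e.map (Fin.succAboveEmb v) ∈ H)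
      with hH'
    refine le_trans ?_ (le_exF (H := H') (fun e he => ?_) ?_)
    · refine card_le_card_of_surjOn (fun e => e.map (Fin.succAboveEmb v)) (fun e he => ?_)
      simp only [coe_filter, Set.mem_ofPred_eq] at he
      have h5 : (e.preimage (Fin.succAboveEmb v) (Fin.succAboveEmb v).injective.injOn).map
          (Fin.succAboveEmb v) = e := by
        ext x
        simp only [Finset.mem_map, Finset.mem_preimage]
        constructor
        · rintro ⟨y, hy, rfl⟩; exact hy
        · intro hx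
          obtain ⟨y, rfl⟩ := Fin.exists_succAbove_eq (x := x) (y := v) (by
            rintro rfl; exact he.2 hx)
          exact ⟨y, hx, rfl⟩
      exact ⟨_, by simp only [hH', coe_filter, Set.mem_ofPred_eq, h5]; exact ⟨mem_univ _, he.1⟩, h5⟩
    · simpa using h1 _ (mem_filter.1 he).2
    · rintro ⟨S, T, hd, hS, hT, h⟩
      refine h2 ⟨S.map (Fin.succAboveEmb v), T.map (Fin.succAboveEmb v),
        (Finset.disjoint_map _).2 hd, by simpa using hS, by simpa using hT, fun e he hc hor => ?_⟩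
      rw [← map_union] at he
      obtain ⟨e', he', rfl⟩ := subset_map_iff.1 he
      simp only [map_subset_map, card_map] at hc hor
      exact (mem_filter.1 (h e' he' hc hor)).2
  have h5 : ∑ v : Fin (n + 1), (H.filter (fun e => v ∉ e)).card = H.card * (n - m) := by
    simp only [card_filter]
    rw [sum_comm, ← smul_eq_mul, ← sum_const]
    refine sum_congr rfl (fun e he => ?_)
    rw [← card_filter]
    have : univ.filter (fun v => v ∉ e) = eᶜ := by ext; simp
    rw [this, card_compl, h1 e he]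
    simp
  rw [← h3, ← h5]
  refine (sum_le_sum (fun v _ => h4 v)).trans ?_
  simp

lemma exists_limit {m i : ℕ} (hi : 1 ≤ i) : ∃ p : ℝ,
    Tendsto (fun n : ℕ => (exF (m + 1) i n : ℝ) / n.choose (m + 1)) atTop (𝓝 p) := by
  refine ⟨_, Real.tendsto_atTop_csInf_of_antitoneOn_bddBelow_nat_Ici (k := m + 1) ?_ ?_⟩
  · refine antitoneOn_nat_Ici_of_succ_le (fun n hn => ?_)
    have h1 : (0 : ℝ) < n.choose (m + 1) := by exact_mod_cast Nat.choose_pos hn
    have h2 : (0 : ℝ) < (n + 1).choose (m + 1) := by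
      exact_mod_cast Nat.choose_pos (show m + 1 ≤ n + 1 by omega)
    rw [div_le_div_iff₀ h2 h1]
    have h3 := exF_step (m := m) hi n
    have h4 := Nat.choose_mul_succ_eq n (m + 1)
    rw [Nat.add_sub_add_right] at h4
    have h5 : exF (m + 1) i (n + 1) * n.choose (m + 1) * (n + 1)
        ≤ exF (m + 1) i n * (n + 1).choose (m + 1) * (n + 1) := by
      rw [mul_assoc, h4]
      nlinarith [Nat.mul_le_mul_left ((n + 1).choose (m + 1)) h3]
    exact_mod_cast Nat.le_of_mul_le_mul_right h5 (Nat.succ_pos n)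
  · exact ⟨0, by rintro _ ⟨n, _, rfl⟩; positivity⟩

lemma Ex_single {V : Type} [Fintype V] [Nonempty V] (k : ℕ) (e : Finset V) (he : e.card = k) :
    Ex k (fun M => ind (e.val = M)) = k.factorial / (Fintype.card V : ℝ) ^ k := by
  classical
  induction k generalizing e with
  | zero => simp [card_eq_zero.1 he, ind]
  | succ k ih =>
    have h1 : ∀ v, Ex k (fun M => ind (e.val = v ::ₘ M))
        = if v ∈ e then k.factorial / (Fintype.card V : ℝ) ^ k else 0 := by
      intro v
      split_ifs with hv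
      · rw [← ih (e.erase v) (by rw [card_erase_of_mem hv, he]; rfl)]
        refine Ex_congr (fun M _ => ind_congr ⟨fun h => ?_, fun h => ?_⟩)
        · rw [erase_val, h, Multiset.erase_cons_head]
        · rw [← h, erase_val, Multiset.cons_erase hv]
      · rw [← Ex_const (V := V) k 0]
        refine Ex_congr (fun M _ => ind_neg (fun h => hv ?_))
        rw [← mem_val, h]; simp
    rw [Ex_succ]
    simp only [h1]
    rw [expect_eq_sum_div_card, sum_ite_mem, univ_inter, sum_const, he, card_univ, nsmul_eq_mul,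
      Nat.factorial_succ, pow_succ]
    have : (Fintype.card V : ℝ) ≠ 0 := by positivity
    push_cast
    field_simp

lemma hit_of_free {m i n : ℕ} (hi : 1 ≤ i) (him : i ≤ m + 1) {H : Finset (Finset (Fin n))}
    (h2 : IsFree (m + 1) i H) : Hit i m (fun M => ¬ ∃ e ∈ H, e.val = M) := by
  intro S T hS hT
  by_contra hc
  push Not at hc
  obtain ⟨hc1, hc2⟩ := hc
  obtain ⟨s, hs⟩ := Multiset.card_pos_iff_exists_mem.1 (show 0 < S.card by omega)
  have hT1 : ∀ s ∈ S, (s ::ₘ T).Nodup := fun s hs => by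
    obtain ⟨e, _, he⟩ := hc2 s hs
    exact he ▸ e.nodup
  have hTn : T.Nodup := (Multiset.nodup_cons.1 (hT1 s hs)).2
  have hSn : S.Nodup := by
    obtain ⟨J, hJ, hJc⟩ := exists_subset_card_eq (s := (⟨T, hTn⟩ : Finset (Fin n)))
      (n := m + 1 - i) (by simp only [card_mk]; omega)
    obtain ⟨e, _, he⟩ := hc1 J.val (val_le_iff.2 hJ) (by rw [card_val]; omega)
    exact Multiset.nodup_of_le (Multiset.le_add_right _ _) (he ▸ e.nodup)
  have hd : Disjoint (⟨S, hSn⟩ : Finset (Fin n)) ⟨T, hTn⟩ :=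
    disjoint_left.2 (fun s hs => (Multiset.nodup_cons.1 (hT1 s hs)).1)
  refine h2 ⟨⟨S, hSn⟩, ⟨T, hTn⟩, hd, hS, hT, fun e he hce hor => ?_⟩
  rcases hor with h | h
  · have h3 : S + (e \ ⟨S, hSn⟩).val = e.val := by
      rw [sdiff_val, add_comm]
      exact Multiset.sub_add_cancel (val_le_iff.2 h)
    obtain ⟨e', he', h4⟩ := hc1 (e \ ⟨S, hSn⟩).val
      ((val_le_iff (s₂ := ⟨T, hTn⟩)).2 (sdiff_le_iff.2 he)) (by
        rw [card_val, card_sdiff_of_subset h, hce, card_mk, hS]; omega)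
    rw [h3, val_inj] at h4
    exact h4 ▸ he'
  · obtain ⟨s, hs⟩ := card_eq_one.1 (show (e \ ⟨T, hTn⟩).card = 1 by
      rw [card_sdiff_of_subset h, hce, card_mk, hT]; omega)
    have h5 : s ∈ e \ ⟨T, hTn⟩ := hs ▸ mem_singleton_self s
    have h6 : s ∈ S := by
      rcases mem_union.1 (he (mem_sdiff.1 h5).1) with h7 | h7
      · exact h7
      · exact absurd h7 (mem_sdiff.1 h5).2
    obtain ⟨e', he', h4⟩ := hc2 s h6
    have h3 : s ::ₘ T = e.val := by
      have := Multiset.sub_add_cancel (val_le_iff.2 h)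
      rw [← sdiff_val, hs] at this
      exact this
    rw [h3, val_inj] at h4
    exact h4 ▸ he'

theorem lower_transfer {m i : ℕ} (hi : 1 ≤ i) (him : i ≤ m + 1) {p c : ℝ}
    (hp : Tendsto (fun n : ℕ => (exF (m + 1) i n : ℝ) / n.choose (m + 1)) atTop (𝓝 p))
    (hc : ∀ (n : ℕ) (g : Multiset (Fin (n + 1)) → Prop), Hit i m g →
      c ≤ Ex (m + 1) (fun M => ind (g M))) : c ≤ 1 - p := by
  have h1 : Tendsto (fun n : ℕ => (n.choose (m + 1) : ℝ) / ((n : ℝ) ^ (m + 1) / (m + 1).factorial))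
      atTop (𝓝 1) :=
    (Asymptotics.isEquivalent_iff_tendsto_one (by
      filter_upwards [eventually_gt_atTop 0] with n hn
      positivity)).1 (isEquivalent_choose (m + 1))
  have h2 := (tendsto_const_nhds (x := (1 : ℝ))).sub (hp.mul h1)
  rw [mul_one] at h2
  refine ge_of_tendsto h2 ?_
  filter_upwards [eventually_ge_atTop (m + 1)] with n hn
  obtain ⟨n, rfl⟩ : ∃ n', n = n' + 1 := ⟨n - 1, by omega⟩
  obtain ⟨H, h3, h4, h5⟩ := exists_exF (m := m) hi (n + 1)
  refine (hc n _ (hit_of_free hi him h4)).trans (le_of_eq ?_)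
  have h6 : ∀ M : Multiset (Fin (n + 1)),
      ind (¬ ∃ e ∈ H, e.val = M) = 1 - ∑ e ∈ H, ind (e.val = M) := by
    intro M
    rw [ind_not]
    congr 1
    by_cases h : ∃ e ∈ H, e.val = M
    · obtain ⟨e, he, rfl⟩ := h
      rw [ind_pos ⟨e, he, rfl⟩, sum_eq_single_of_mem e he (fun e' _ hne =>
        ind_neg (fun h => hne (val_inj.1 h))), ind_pos rfl]
    · rw [ind_neg h]
      exact (sum_eq_zero (fun e he => ind_neg (fun h' => h ⟨e, he, h'⟩))).symm
  simp only [h6]
  rw [Ex_sub, Ex_const, Ex_sum, sum_congr rfl (fun e he => Ex_single _ e (h3 e he)), sum_const,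
    h5, nsmul_eq_mul, Fintype.card_fin]
  have h7 : (0 : ℝ) < (n + 1).choose (m + 1) := by exact_mod_cast Nat.choose_pos hn
  field_simp

theorem upper_transfer {m i : ℕ} {p c : ℝ}
    (hp : Tendsto (fun n : ℕ => (exF (m + 1) i n : ℝ) / n.choose (m + 1)) atTop (𝓝 p))
    (hc : ∀ n : ℕ, ∃ (Ω : Type) (_ : Fintype Ω) (_ : Nonempty Ω) (G : Ω → Finset (Fin n) → Prop),
      (∀ ω S T, Disjoint S T → S.card = i → T.card = m →
        ∃ e ⊆ S ∪ T, e.card = m + 1 ∧ (S ⊆ e ∨ T ⊆ e) ∧ G ω e) ∧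
      ∀ e : Finset (Fin n), e.card = m + 1 → 𝔼 ω, ind (G ω e) ≤ c) : 1 - p ≤ c := by
  classical
  rw [sub_le_comm]
  refine ge_of_tendsto hp ?_
  filter_upwards [eventually_ge_atTop (m + 1)] with n hn
  obtain ⟨Ω, _, _, G, h1, h2⟩ := hc n
  have h7 : (0 : ℝ) < n.choose (m + 1) := by exact_mod_cast Nat.choose_pos hn
  rw [le_div_iff₀ h7]
  have h3 : ∀ ω, ∑ e ∈ powersetCard (m + 1) (univ : Finset (Fin n)), (1 - ind (G ω e))
      ≤ exF (m + 1) i n := by
    intro ω
    have h4 := le_exF (k := m + 1) (i := i)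
      (H := (powersetCard (m + 1) univ).filter (fun e => ¬ G ω e))
      (fun e he => (mem_powersetCard.1 (mem_filter.1 he).1).2) (by
        rintro ⟨S, T, hd, hS, hT, h⟩
        obtain ⟨e, he, hc, hor, hG⟩ := h1 ω S T hd hS hT
        exact (mem_filter.1 (h e he hc hor)).2 hG)
    refine le_trans (le_of_eq ?_) (Nat.cast_le.2 h4)
    rw [card_filter]
    push_cast
    refine sum_congr rfl (fun e _ => ?_)
    rw [← ind_not, ind]
    congr 1
  have h4 := expect_le univ_nonempty (fun ω _ => h3 ω)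
  rw [expect_sum_comm] at h4
  refine le_trans ?_ h4
  have h5 : ∑ e ∈ powersetCard (m + 1) (univ : Finset (Fin n)), (1 - c)
      = (1 - c) * n.choose (m + 1) := by
    rw [sum_const, card_powersetCard, card_univ, Fintype.card_fin, nsmul_eq_mul, mul_comm]
  rw [← h5]
  refine sum_le_sum (fun e he => ?_)
  rw [expect_sub_distrib, expect_const univ_nonempty]
  linarith [h2 e (mem_powersetCard.1 he).2]

end Pool.Agent.P.MP_7badbe_co
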