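import Pool.Agent.P.MP_7badbe_co.Hash

set_option autoImplicit false

open Finset Filter Topology
open scoped BigOperators

namespace Pool.Agent.P.MP_7badbe_co

/-- a random Turan system on lists with all marginals at most `p` -/
def RT (V : Type) (r R : ℕ) (p : ℝ) : Prop :=
  ∃ (Ω : Type) (_ : Fintype Ω) (_ : Nonempty Ω) (G : Ω → List V → Prop),
    (∀ ω (X : List V), X.Nodup → X.length = r + R → ∃ e, e.Sublist X ∧ e.length = r ∧ G ω e) ∧
    ∀ e : List V, e.Nodup → e.length = r → 𝔼 ω, ind (G ω e) ≤ p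

lemma RT.mono {V : Type} {r R : ℕ} {p q : ℝ} (h : RT V r R p) (hpq : p ≤ q) : RT V r R q := by
  obtain ⟨Ω, _, _, G, h1, h2⟩ := h
  exact ⟨Ω, inferInstance, inferInstance, G, h1, fun e he hl => (h2 e he hl).trans hpq⟩

lemma RT_one (V : Type) (r R : ℕ) : RT V r R 1 :=
  ⟨Unit, inferInstance, inferInstance, fun _ _ => True,
    fun _ X _ hX => ⟨X.take r, List.take_sublist _ _, by simp [hX], trivial⟩,
    fun _ _ _ => av_ind_le_one _⟩

lemma av_zero (M : ℕ) [NeZero M] : 𝔼 v : Fin M, ind (v = 0) = 1 / M := by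
  rw [Fintype.expect_eq_sum_div_card, sum_eq_single 0 (fun b _ hb => ind_neg hb) (by simp),
    ind_pos rfl, Fintype.card_fin]

lemma RT_step {V : Type} [Fintype V] [DecidableEq V] {a s R : ℕ} {p : ℝ} (M : ℕ) [NeZero M]
    (h : RT V s R p) :
    RT V (a + R + s) R (1 / M + (1 - 1 / M) ^ ((a + R).choose a) * p) := by
  obtain ⟨Ω, _, _, G, h1, h2⟩ := h
  refine ⟨(Finset V → Fin M) × Ω, inferInstance, inferInstance, fun ω e =>
    ω.1 (e.take a).toFinset = 0 ∨
      ((∀ Z ∈ powersetCard a (e.take (a + R)).toFinset, ¬ ω.1 Z = 0) ∧ G ω.2 (e.drop (a + R))),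
    ?_, ?_⟩
  · rintro ⟨c, ω⟩ X hX hl
    have hY : (X.take (a + R)).length = a + R := by simp [hl]; omega
    by_cases hb : ∀ Z ∈ powersetCard a (X.take (a + R)).toFinset, ¬ c Z = 0
    · obtain ⟨e, he, hel, hG⟩ := h1 ω (X.drop (a + R)) (hX.sublist (List.drop_sublist _ _))
        (by simp [hl]; omega)
      refine ⟨X.take (a + R) ++ e, ?_, by simp only [List.length_append, hY, hel], Or.inr ?_⟩
      · conv_rhs => rw [← List.take_append_drop (a + R) X]
        exact List.Sublist.append_left he _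
      · rw [List.take_left' hY, List.drop_left' hY]
        exact ⟨hb, hG⟩
    · push Not at hb
      obtain ⟨Z, hZ, hc⟩ := hb
      obtain ⟨hZ1, hZ2⟩ := mem_powersetCard.1 hZ
      have h3 : ((X.take (a + R)).filter (fun x => x ∈ Z)).toFinset = Z := by
        ext x
        simp only [List.mem_toFinset, List.mem_filter, decide_eq_true_eq]
        exact ⟨fun h => h.2, fun h => ⟨List.mem_toFinset.1 (hZ1 h), h⟩⟩
      have h4 : ((X.take (a + R)).filter (fun x => x ∈ Z)).length = a := by
        rw [← List.toFinset_card_of_nodup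
          ((hX.sublist (List.take_sublist _ _)).filter _), h3, hZ2]
      refine ⟨(X.take (a + R)).filter (fun x => x ∈ Z) ++ X.drop (a + R), ?_, ?_, Or.inl ?_⟩
      · conv_rhs => rw [← List.take_append_drop (a + R) X]
        exact List.Sublist.append_right List.filter_sublist _
      · simp only [List.length_append, h4, List.length_drop, hl]; omega
      · rw [List.take_left' h4, h3]; exact hc
  · intro e he hl
    have hY : (e.take (a + R)).length = a + R := by simp [hl]
    have h3 : ∀ ω : (Finset V → Fin M) × Ω, ind (ω.1 (e.take a).toFinset = 0 ∨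
        ((∀ Z ∈ powersetCard a (e.take (a + R)).toFinset, ¬ ω.1 Z = 0) ∧ G ω.2 (e.drop (a + R))))
        ≤ ind (ω.1 (e.take a).toFinset = 0) +
        ind (∀ Z ∈ powersetCard a (e.take (a + R)).toFinset, ¬ ω.1 Z = 0)
          * ind (G ω.2 (e.drop (a + R))) := by
      intro ω
      rw [← ind_and]
      by_cases h4 : ω.1 (e.take a).toFinset = 0
      · rw [ind_pos h4]
        exact (ind_le_one _).trans (le_add_of_nonneg_right (ind_nonneg _))
      · rw [ind_neg h4, zero_add]
        exact ind_mono (fun h => h.resolve_left h4)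
    refine (expect_le_expect (fun ω _ => h3 ω)).trans ?_
    rw [← univ_product_univ, expect_product]
    simp only [expect_add_distrib, expect_const univ_nonempty, ← mul_expect, ← expect_mul]
    have h4 : 𝔼 c : Finset V → Fin M, ind (c (e.take a).toFinset = 0) = 1 / M := by
      rw [expect_update (e.take a).toFinset]
      simp only [Function.update_self, expect_const univ_nonempty, av_zero]
    have h5 := expect_map (A := Fin M) (powersetCard a (e.take (a + R)).toFinset)
      (fun T => ind (∀ t ∈ T, ¬ t = 0))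
    rw [Ex_all, card_powersetCard,
      List.toFinset_card_of_nodup (he.sublist (List.take_sublist _ _)), hY] at h5
    simp only [Multiset.forall_mem_map_iff, mem_val, ind_not (_ = (0 : Fin M)), expect_sub_distrib,
      expect_const univ_nonempty, av_zero] at h5
    rw [h4, h5]
    have h6 : (0 : ℝ) ≤ 1 - 1 / M := by
      rw [sub_nonneg, div_le_one (by exact_mod_cast NeZero.pos M)]
      exact_mod_cast NeZero.one_le
    gcongr
    exact h2 _ (he.sublist (List.drop_sublist _ _)) (by simp [hl])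

theorem RT_bound (R : ℕ) : ∃ K : ℝ, 0 < K ∧ ∀ (V : Type) [Fintype V] [DecidableEq V] (r : ℕ),
    RT V r R (K / ((r : ℝ) + 1) ^ R) := by
  set D : ℝ := 4 * (R + 1) * R.factorial * 4 ^ R with hD
  have hD0 : 0 < D := by positivity
  obtain ⟨r₀, hr₀⟩ : ∃ r₀ : ℕ, 4 * R + 1 ≤ r₀ ∧ (R = 0 ∨ D ≤ r₀) :=
    ⟨max (4 * R + 1) ⌈D⌉₊, le_max_left _ _,
      Or.inr ((Nat.le_ceil D).trans (by exact_mod_cast le_max_right _ _))⟩
  rcases Nat.eq_zero_or_pos R with rfl | hR
  · exact ⟨1, one_pos, fun V _ _ r => by simpa using RT_one V r 0⟩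
  have hD1 : D ≤ r₀ := hr₀.2.resolve_left hR.ne'
  set K : ℝ := D + ((r₀ : ℝ) + 1) ^ R with hK
  have hK0 : 0 < K := by positivity
  refine ⟨K, hK0, fun V _ _ r => ?_⟩
  induction r using Nat.strong_induction_on with
  | h r ih =>
    rcases lt_or_ge r r₀ with hr | hr
    · refine (RT_one V r R).mono ?_
      rw [le_div_iff₀ (by positivity), one_mul]
      have : ((r : ℝ) + 1) ^ R ≤ ((r₀ : ℝ) + 1) ^ R := by
        gcongr
      linarith
    · obtain ⟨a, ha⟩ : ∃ a, r = a + R + r / 2 := ⟨r - R - r / 2, by omega⟩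
      set C := (a + R).choose a with hC
      have hC1 : ((r : ℝ) + 1) ^ R ≤ R.factorial * 4 ^ R * C := by
        have h1 := Nat.pow_le_choose (α := ℝ) R (a + R)
        rw [← Nat.choose_symm_add, ← hC, div_le_iff₀ (by positivity)] at h1
        have h2 : (r : ℝ) + 1 ≤ 4 * ((a + R + 1 - R : ℕ) : ℝ) := by
          exact_mod_cast (show r + 1 ≤ 4 * (a + R + 1 - R) by omega)
        calc ((r : ℝ) + 1) ^ R ≤ (4 * ((a + R + 1 - R : ℕ) : ℝ)) ^ R := by gcongr
          _ = 4 ^ R * ((a + R + 1 - R : ℕ) : ℝ) ^ R := mul_pow _ _ _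
          _ ≤ 4 ^ R * (C * R.factorial) := by gcongr
          _ = _ := by ring
      have hF : (0 : ℝ) < R.factorial * 4 ^ R := by positivity
      have hC2 : 4 * ((R : ℝ) + 1) ≤ C := by
        have h1 : (r : ℝ) + 1 ≤ ((r : ℝ) + 1) ^ R :=
          le_self_pow₀ (by linarith [Nat.cast_nonneg (α := ℝ) r]) hR.ne'
        have h2 : (r₀ : ℝ) ≤ r := by exact_mod_cast hr
        have h3 : R.factorial * 4 ^ R * (4 * ((R : ℝ) + 1)) ≤ R.factorial * 4 ^ R * C := by
          nlinarith
        exact le_of_mul_le_mul_left h3 hF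
      set M := C / (R + 1) with hM
      have hM1 : (M : ℝ) * (R + 1) ≤ C := by exact_mod_cast Nat.div_mul_le_self C (R + 1)
      have hM2 : (C : ℝ) < (R + 1) * (M + 1) := by
        exact_mod_cast Nat.lt_mul_div_succ C (Nat.succ_pos R)
      have hR0 : (0 : ℝ) < R + 1 := by positivity
      have hM3 : (1 : ℝ) ≤ M := by nlinarith
      have : NeZero M := ⟨by exact_mod_cast (show (M : ℝ) ≠ 0 by linarith)⟩
      have h1 := RT_step (a := a) M (ih (r / 2) (by omega))
      rw [← ha, ← hC] at h1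
      refine h1.mono ?_
      have h2 : (1 : ℝ) / M ≤ K / 2 / ((r : ℝ) + 1) ^ R := by
        rw [div_le_div_iff₀ (by linarith) (by positivity), one_mul]
        have h3 : (C : ℝ) ≤ 2 * (R + 1) * M := by nlinarith
        have h4 : D / 2 * M ≤ K / 2 * M := by
          gcongr
          exact le_add_of_nonneg_right (by positivity)
        nlinarith [mul_le_mul_of_nonneg_left h3 hF.le]
      have h3 : (1 - (1 : ℝ) / M) ^ C ≤ (1 / 2) ^ (R + 1) := by
        have h4 : (0 : ℝ) ≤ 1 - 1 / M := by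
          rw [sub_nonneg, div_le_one (by linarith)]; exact hM3
        refine (pow_le_pow_left₀ h4 (Real.one_sub_le_exp_neg _) _).trans ?_
        have h5 : Real.exp (-1) ≤ 1 / 2 := by
          rw [Real.exp_neg, one_div]
          exact inv_anti₀ two_pos (by linarith [Real.exp_one_gt_d9])
        refine le_trans ?_ (pow_le_pow_left₀ (Real.exp_pos _).le h5 _)
        rw [← Real.exp_nat_mul, ← Real.exp_nat_mul, Real.exp_le_exp]
        have h6 : (R : ℝ) + 1 ≤ C * (1 / M) := by
          rw [mul_one_div, le_div_iff₀ (by linarith)]; linarith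
        push_cast
        linarith
      have h4 : K / (((r / 2 : ℕ) : ℝ) + 1) ^ R ≤ 2 ^ R * (K / ((r : ℝ) + 1) ^ R) := by
        rw [← mul_div_assoc, div_le_div_iff₀ (by positivity) (by positivity)]
        have h5 : (r : ℝ) + 1 ≤ 2 * (((r / 2 : ℕ) : ℝ) + 1) := by
          exact_mod_cast (show r + 1 ≤ 2 * (r / 2 + 1) by omega)
        calc K * ((r : ℝ) + 1) ^ R ≤ K * (2 * (((r / 2 : ℕ) : ℝ) + 1)) ^ R := by gcongr
          _ = _ := by rw [mul_pow]; ring
      have h5 : (1 - (1 : ℝ) / M) ^ C * (K / (((r / 2 : ℕ) : ℝ) + 1) ^ R)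
          ≤ (1 / 2) ^ (R + 1) * (2 ^ R * (K / ((r : ℝ) + 1) ^ R)) :=
        mul_le_mul h3 h4 (by positivity) (by positivity)
      rw [← mul_assoc, show (1 / 2 : ℝ) ^ (R + 1) * 2 ^ R = 1 / 2 by
        rw [pow_succ, one_div, inv_pow]; field_simp] at h5
      rw [div_right_comm] at h2
      linarith

lemma exists_block {V : Type} (P : V → Bool) (l i : ℕ) (W : List V) (h1 : W.countP P ≤ i)
    (h2 : (i + 1) * l ≤ W.length) :
    ∃ b ≤ i, ∃ W₁ B W₂ : List V, W = W₁ ++ B ++ W₂ ∧ W₁.length = b * l ∧ B.length = l ∧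
      ∀ x ∈ B, P x = false := by
  induction i generalizing W with
  | zero =>
    refine ⟨0, le_rfl, [], W.take l, W.drop l, by simp, by simp, by simpa using h2, fun x hx => ?_⟩
    simpa using List.countP_eq_zero.1 (Nat.le_zero.1 h1) x (List.mem_of_mem_take hx)
  | succ i ih =>
    have hl : (W.take l).length = l := by
      rw [List.length_take]; exact min_eq_left (by nlinarith)
    by_cases h : ∀ x ∈ W.take l, P x = false
    · exact ⟨0, Nat.zero_le _, [], W.take l, W.drop l, by simp, by simp, hl, h⟩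
    · have h3 : 0 < (W.take l).countP P := by
        rw [List.countP_pos_iff]
        push Not at h
        simpa using h
      have h4 : W.countP P = (W.take l).countP P + (W.drop l).countP P := by
        rw [← List.countP_append, List.take_append_drop]
      obtain ⟨b, hb, W₁, B, W₂, h5, h6, h7, h8⟩ := ih (W.drop l) (by omega)
        (by rw [List.length_drop]; exact Nat.le_sub_of_add_le (by nlinarith))
      refine ⟨b + 1, by omega, W.take l ++ W₁, B, W₂, ?_, ?_, h7, h8⟩
      · rw [List.append_assoc, List.append_assoc, ← List.append_assoc W₁, ← h5,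
          List.take_append_drop]
      · rw [List.length_append, hl, h6]; ring

theorem upper_fixed {m R r : ℕ} {p q : ℝ} (hr : (R + 2) * (r + R) ≤ m + 1)
    (hp : Tendsto (fun n : ℕ => (exF (m + 1) (R + 1) n : ℝ) / n.choose (m + 1)) atTop (𝓝 p))
    (h : ∀ n, RT (Fin n) r R q) : 1 - p ≤ (R + 2) * q := by
  refine upper_transfer hp (fun n => ?_)
  obtain ⟨Ω, _, _, G, h1, h2⟩ := h n
  refine ⟨Ω, inferInstance, inferInstance, fun ω e => ∃ b ∈ range (R + 2),
    G ω (((e.sort (· ≤ ·)).drop (b * (r + R))).take r), fun ω S T hd hS hT => ?_, fun e he => ?_⟩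
  · set W := (S ∪ T).sort (· ≤ ·) with hW
    have hWl : W.length = R + 1 + m := by
      rw [hW, length_sort, card_union_of_disjoint hd, hS, hT]
    have hWn : W.Nodup := sort_nodup _ _
    have hWs : W.Pairwise (· ≤ ·) := pairwise_sort _ _
    obtain ⟨b, hb, W₁, B, W₂, h3, h4, h5, h6⟩ := exists_block (fun x => x ∈ S) (r + R) (R + 1) W
      (by
        rw [List.countP_eq_length_filter, ← List.toFinset_card_of_nodup (hWn.filter _), ← hS]
        refine card_le_card (fun x hx => ?_)
        simpa using (List.mem_filter.1 (List.mem_toFinset.1 hx)).2)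
      (by rw [hWl]; nlinarith)
    obtain ⟨e, he, hel, hG⟩ := h1 ω B (hWn.sublist (h3 ▸
      (List.sublist_append_right W₁ B).trans (List.sublist_append_left _ _))) h5
    have h7 : (W₁ ++ e ++ W₂).Sublist W := h3 ▸ ((he.append_left W₁).append_right W₂)
    have h8 := hWn.sublist h7
    refine ⟨(W₁ ++ e ++ W₂).toFinset, fun x hx => ?_, ?_, Or.inl (fun x hx => ?_), b,
      mem_range.2 (by omega), ?_⟩
    · exact (mem_sort (· ≤ ·)).1 (h7.subset (List.mem_toFinset.1 hx))
    · rw [List.toFinset_card_of_nodup h8]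
      rw [h3] at hWl
      simp only [List.length_append] at hWl ⊢
      omega
    · have h9 : x ∈ W := (mem_sort (· ≤ ·)).2 (mem_union_left _ hx)
      rw [h3] at h9
      simp only [List.mem_toFinset, List.mem_append] at h9 ⊢
      rcases h9 with (h9 | h9) | h9
      · exact Or.inl (Or.inl h9)
      · exact absurd (h6 x h9) (by simpa using hx)
      · exact Or.inr h9
    · rw [(List.toFinset_sort (· ≤ ·) h8).2 (hWs.sublist h7), List.append_assoc,
        List.drop_left' h4, List.take_left' hel]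
      exact hG
  · have h3 : ∀ ω, ind (∃ b ∈ range (R + 2),
        G ω (((e.sort (· ≤ ·)).drop (b * (r + R))).take r))
        ≤ ∑ b ∈ range (R + 2), ind (G ω (((e.sort (· ≤ ·)).drop (b * (r + R))).take r)) :=
      fun ω => ind_le_mapsum _ (range (R + 2)).val
    refine (expect_le_expect (fun ω _ => h3 ω)).trans ?_
    rw [expect_sum_comm]
    refine (sum_le_sum (fun b hb => h2 _ ((sort_nodup _ _).sublist
      ((List.take_sublist _ _).trans (List.drop_sublist _ _))) ?_)).trans (by simp)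
    have := mem_range.1 hb
    rw [List.length_take, List.length_drop, length_sort, he]
    exact min_eq_left (Nat.le_sub_of_add_le (by nlinarith))

theorem fixed (i : ℕ) (hi : 1 ≤ i) : ∃ c C : ℝ, 0 < c ∧ ∃ k₀ : ℕ, ∀ k ≥ k₀, ∃ p : ℝ,
    Tendsto (fun n : ℕ => (exF k i n : ℝ) / n.choose k) atTop (𝓝 p) ∧
    c / (k : ℝ) ^ (i - 1) ≤ 1 - p ∧ 1 - p ≤ C / (k : ℝ) ^ (i - 1) := by
  obtain ⟨R, rfl⟩ : ∃ R, i = R + 1 := ⟨i - 1, by omega⟩
  obtain ⟨K, hK0, hK⟩ := RT_bound R
  refine ⟨1 / (R + 2), (R + 2) * (K * (2 * (R + 2)) ^ R), by positivity,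
    (R + 2) * (2 * R + 1), fun k hk => ?_⟩
  obtain ⟨m, rfl⟩ : ∃ m, k = m + 1 := ⟨k - 1, by
    have : 0 < k := lt_of_lt_of_le (by positivity) hk
    omega⟩
  obtain ⟨p, hp⟩ := exists_limit (m := m) (i := R + 1) hi
  have hRm : R + 1 ≤ m + 1 := by nlinarith
  have hk1 : (1 : ℝ) ≤ ((m : ℝ) + 1) ^ R := one_le_pow₀ (by linarith [Nat.cast_nonneg (α := ℝ) m])
  rw [Nat.add_sub_cancel]
  push_cast
  refine ⟨p, hp, lower_transfer hi hRm hp (fun n g hg => ?_), ?_⟩
  · have h1 := lower_avg (R + 1) m hRm g hg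
    have h2 : (m.choose (m + 1 - (R + 1)) : ℝ) ≤ ((m : ℝ) + 1) ^ R := by
      rw [Nat.add_sub_add_right, Nat.choose_symm (by omega)]
      exact_mod_cast (Nat.choose_le_pow m R).trans (Nat.pow_le_pow_left (Nat.le_succ m) R)
    have h0 : 0 ≤ Ex (m + 1) (fun M => ind (g M)) := Ex_nonneg (fun _ _ => ind_nonneg _)
    rw [div_div, div_le_iff₀ (by positivity)]
    refine h1.trans ?_
    rw [mul_comm]
    refine mul_le_mul_of_nonneg_left ?_ h0
    generalize (m.choose (m + 1 - (R + 1)) : ℝ) = y at h2 ⊢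
    push_cast
    nlinarith [Nat.cast_nonneg (α := ℝ) R]
  · set l := (m + 1) / (R + 2) with hl
    have h1 : 2 * R + 1 ≤ l := (Nat.le_div_iff_mul_le (by omega)).2 (by nlinarith)
    obtain ⟨r, hr⟩ : ∃ r, l = r + R := ⟨l - R, by omega⟩
    refine (upper_fixed (r := r) (by rw [← hr]; exact Nat.mul_div_le _ _) hp
      (fun n => hK (Fin n) r)).trans ?_
    rw [mul_div_assoc]
    refine mul_le_mul_of_nonneg_left ?_ (by positivity)
    rw [div_le_div_iff₀ (by positivity) (by positivity), mul_assoc, ← mul_pow]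
    have h2 : m + 1 < (R + 2) * (l + 1) := Nat.lt_mul_div_succ _ (by omega)
    have h3 : (m : ℝ) + 1 ≤ 2 * (R + 2) * (r + 1) := by
      exact_mod_cast (show m + 1 ≤ 2 * (R + 2) * (r + 1) by nlinarith [show l ≤ 2 * r by omega])
    gcongr

end Pool.Agent.P.MP_7badbe_co
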